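import Mathlib

/-!
Abstract bookkeeping for the level by level reduction of a loop.
A group G acts on a set Y (the universal cover), `R k u v` says that v is reached from u by a
chain of k short steps, and `pr` is the projection to the base X.
-/

set_option autoImplicit false

namespace Pool.Agent.Lib.MP_09d3b1_an

/-- The abstract properties of the covering set with its short chains. -/
structure Cov (G Y X : Type*) [Group G] [MulAction G Y] where
  pr : Y → X
  R : ℕ → Y → Y → Prop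
  near : X → X → Prop
  K : ℕ
  pr_smul : ∀ (g : G) (u : Y), pr (g • u) = pr u
  fibre : ∀ u v : Y, pr u = pr v → ∃ g : G, g • u = v
  free : ∀ (g : G) (u : Y), g • u = u → g = 1
  R_refl : ∀ u, R 0 u u
  R_mono : ∀ {k l u v}, R k u v → k ≤ l → R l u v
  R_trans : ∀ {k l u v w}, R k u v → R l v w → R (k + l) u w
  R_symm : ∀ {k u v}, R k u v → R k v u
  R_smul : ∀ {k u v} (g : G), R k u v → R k (g • u) (g • v)
  lift : ∀ (u : Y) (q : X), near (pr u) q → ∃ v, pr v = q ∧ R 1 u v
  inj : ∀ {k u v}, R k u v → k ≤ K → pr u = pr v → u = v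
  K_ge : 12 ≤ K

variable {G Y X : Type*} [Group G] [MulAction G Y] (C : Cov G Y X)

namespace Cov

/-- `Cost g x`: g is a product of elements, each moving some point by a chain of m > K steps,
the numbers m adding up to at most x. -/
def Cost (g : G) (x : ℕ) : Prop :=
  ∃ l : List (G × ℕ), (l.map Prod.fst).prod = g ∧ (l.map Prod.snd).sum ≤ x ∧
    ∀ p ∈ l, C.K < p.2 ∧ ∃ w : Y, C.R p.2 w (p.1 • w)

theorem Cost.one (x : ℕ) : C.Cost 1 x := ⟨[], by simp, by simp, by simp⟩

variable {C}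

theorem Cost.mono {g : G} {x y : ℕ} (h : C.Cost g x) (hxy : x ≤ y) : C.Cost g y := by
  obtain ⟨l, h1, h2, h3⟩ := h
  exact ⟨l, h1, h2.trans hxy, h3⟩

theorem Cost.mul {g g' : G} {x y : ℕ} (h : C.Cost g x) (h' : C.Cost g' y) :
    C.Cost (g * g') (x + y) := by
  obtain ⟨l, h1, h2, h3⟩ := h
  obtain ⟨l', h1', h2', h3'⟩ := h'
  refine ⟨l ++ l', by simp [h1, h1'], by simp; omega, ?_⟩
  intro p hp
  rcases List.mem_append.1 hp with hp | hp
  · exact h3 p hp
  · exact h3' p hp

theorem Cost.single {g : G} {m : ℕ} {w : Y} (hm : C.K < m) (h : C.R m w (g • w)) :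
    C.Cost g m :=
  ⟨[(g, m)], by simp, by simp, by
    intro p hp
    simp only [List.mem_singleton] at hp
    subst hp
    exact ⟨hm, w, h⟩⟩

variable (C)

/-- The bookkeeping relation between marked points (u, a) and (v, b), with slack s. -/
def E (s : ℕ) (u : Y) (a : ℕ) (v : Y) (b : ℕ) : Prop :=
  ∃ (c : G) (x r : ℕ), C.Cost c x ∧ a + x + 2 * r ≤ b ∧ C.R (r + s) (c • u) v

variable {C}

theorem E.of_R {s : ℕ} {u v : Y} (a : ℕ) (h : C.R s u v) : C.E s u a v a :=
  ⟨1, 0, 0, Cost.one C 0, by omega, by simpa using h⟩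

theorem E.trans {s t : ℕ} {u v w : Y} {a b d : ℕ} (h : C.E s u a v b) (h' : C.E t v b w d) :
    C.E (s + t) u a w d := by
  obtain ⟨c, x, r, h1, h2, h3⟩ := h
  obtain ⟨c', x', r', h1', h2', h3'⟩ := h'
  refine ⟨c' * c, x' + x, r + r', h1'.mul h1, by omega, ?_⟩
  have := C.R_trans (C.R_smul c' h3) h3'
  rw [mul_smul]
  exact C.R_mono this (by omega)

theorem E.mono {s t : ℕ} {u v : Y} {a b a' b' : ℕ} (h : C.E s u a v b) (hst : s ≤ t)
    (hab : b + a' ≤ b' + a) : C.E t u a' v b' := by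
  obtain ⟨c, x, r, h1, h2, h3⟩ := h
  exact ⟨c, x, r, h1, by omega, C.R_mono h3 (by omega)⟩

theorem E.pay {s t : ℕ} {u v : Y} {a b : ℕ} (h : C.E (s + t) u a v b) :
    C.E s u a v (b + 2 * t) := by
  obtain ⟨c, x, r, h1, h2, h3⟩ := h
  exact ⟨c, x, r + t, h1, by omega, C.R_mono h3 (by omega)⟩

theorem E.reset {u v : Y} {a b : ℕ} (h : C.E 5 u a v b) (hn : C.near (C.pr u) (C.pr v)) :
    C.E 1 u a v b := by
  obtain ⟨c, x, r, h1, h2, h3⟩ := h
  obtain ⟨v', hv', hR⟩ := C.lift (c • u) (C.pr v) (by rwa [C.pr_smul])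
  have h4 : C.R (1 + (r + 5)) v' v := C.R_trans (C.R_symm hR) h3
  by_cases hk : 1 + (r + 5) ≤ C.K
  · have := C.inj h4 hk hv'
    subst this
    exact ⟨c, x, 0, h1, by omega, by simpa using hR⟩
  · obtain ⟨g, rfl⟩ := C.fibre v' v hv'
    have hK := C.K_ge
    refine ⟨g * c, (1 + (r + 5)) + x, 0, (Cost.single (by omega) h4).mul h1, by omega, ?_⟩
    rw [mul_smul]
    simpa using C.R_smul g hR

theorem E.cost {u : Y} {g : G} {a b : ℕ} (h : C.E 5 u a (g • u) b) : C.Cost g (b - a) := by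
  obtain ⟨c, x, r, h1, h2, h3⟩ := h
  have hp : C.pr (c • u) = C.pr (g • u) := by rw [C.pr_smul, C.pr_smul]
  have key : ∀ g' : G, g' • u = g • u → g' = g := by
    intro g' hg'
    have : (g⁻¹ * g') • u = u := by rw [mul_smul, hg', inv_smul_smul]
    have := C.free _ _ this
    rw [inv_mul_eq_one] at this
    exact this.symm
  by_cases hk : r + 5 ≤ C.K
  · have := key c (C.inj h3 hk hp)
    subst this
    exact h1.mono (by omega)
  · obtain ⟨g', hg'⟩ := C.fibre _ _ hp
    have hK := C.K_ge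
    have h5 : g' * c = g := key _ (by rw [mul_smul, hg'])
    rw [← hg'] at h3
    rw [← h5]
    exact ((Cost.single (by omega) h3).mul h1).mono (by omega)

variable (C)

/-- The invariant at a level with n arcs per turn. -/
def Inv (g : G) (Maj : ℕ → X → Prop) (n Ψ : ℕ) : Prop :=
  ∃ (u : ℕ → Y) (W : ℕ → ℕ), (∀ j, u (j + n) = g • u j) ∧ (∀ j, W (j + n) = W j + Ψ) ∧
    (∀ j, C.E 1 (u j) (W j) (u (j + 1)) (W (j + 1))) ∧
    (∀ j, (∃ q, Maj j q) → Maj j (C.pr (u j)))

/-- An edge between two consecutive arcs is clean. -/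
def Clean (Maj : ℕ → X → Prop) (j : ℕ) : Prop :=
  (∃ q, Maj j q) ∧ (∃ q, Maj (j + 1) q) ∧ ∀ q q', Maj j q → Maj (j + 1) q' → C.near q q'

variable {C}

theorem periodic_choice {g : G} {n : ℕ} (hn : 0 < n) (Q : ℕ → ℕ → Y → Prop)
    (hQ : ∀ j b v, Q j b v → Q (j + n) b (g • v)) (hex : ∀ j, ∃ b v, Q j b v) :
    ∃ (b : ℕ → ℕ) (u : ℕ → Y), (∀ j, Q j (b j) (u j)) ∧ (∀ j, b (j + n) = b j) ∧
      ∀ j, u (j + n) = g • u j := by
  choose b v hv using hex
  refine ⟨fun j => b (j % n), fun j => g ^ (j / n) • v (j % n), ?_, ?_, ?_⟩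
  · have : ∀ k i, Q (i + k * n) (b i) (g ^ k • v i) := by
      intro k i
      induction k with
      | zero => simpa using hv i
      | succ k ih =>
        have := hQ _ _ _ ih
        rw [pow_succ', mul_smul]
        convert this using 1
        ring
    intro j
    have h := this (j / n) (j % n)
    have e : j % n + j / n * n = j := by rw [mul_comm]; exact Nat.mod_add_div j n
    rwa [e] at h
  · intro j
    simp
  · intro j
    simp only [Nat.add_mod_right]
    rw [Nat.add_div_right _ hn, pow_succ', mul_smul]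

open Classical in
theorem step {g : G} {Maj Maj' : ℕ → X → Prop} {n Ψ : ℕ} (hn : 0 < n)
    (hper : ∀ j q, Maj (j + n) q ↔ Maj j q)
    (hchild : ∀ j q, Maj j q → Maj' (2 * j) q ∨ Maj' (2 * j + 1) q)
    (hnear : ∀ j q q', Maj' j q → Maj' j q' → C.near q q')
    (h : C.Inv g Maj' (2 * n) Ψ) :
    C.Inv g Maj n (Ψ + 8 * ((Finset.range n).filter (fun j => ¬ C.Clean Maj j)).card) := by
  obtain ⟨u', W', hu', hW', hE', hM'⟩ := h
  obtain ⟨b, u, hQ, hb, hu⟩ := periodic_choice (g := g) hn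
    (fun j b v => b ≤ 1 ∧ C.R 1 (u' (2 * j + b)) v ∧ ((∃ q, Maj j q) → Maj j (C.pr v)))
    (by
      rintro j b v ⟨h1, h2, h3⟩
      refine ⟨h1, ?_, ?_⟩
      · have : 2 * (j + n) + b = (2 * j + b) + 2 * n := by ring
        rw [this, hu']
        exact C.R_smul g h2
      · rintro ⟨q, hq⟩
        rw [hper, C.pr_smul]
        exact h3 ⟨q, (hper _ _).1 hq⟩)
    (by
      intro j
      by_cases hj : ∃ q, Maj j q
      · obtain ⟨q, hq⟩ := hj
        rcases hchild j q hq with h1 | h1
        · obtain ⟨v, hv, hR⟩ := C.lift (u' (2 * j)) q (hnear _ _ _ (hM' _ ⟨q, h1⟩) h1)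
          exact ⟨0, v, by omega, hR, fun _ => hv ▸ hq⟩
        · obtain ⟨v, hv, hR⟩ := C.lift (u' (2 * j + 1)) q (hnear _ _ _ (hM' _ ⟨q, h1⟩) h1)
          exact ⟨1, v, by omega, hR, fun _ => hv ▸ hq⟩
      · exact ⟨0, u' (2 * j), by omega, C.R_mono (C.R_refl _) (by omega), fun h => absurd h hj⟩)
  let d : ℕ → ℕ := fun j => if C.Clean Maj j then 0 else 1
  have hd : ∀ j, d (j + n) = d j := by
    intro j
    have : C.Clean Maj (j + n) ↔ C.Clean Maj j := by
      have e : j + n + 1 = (j + 1) + n := by ring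
      simp only [Clean, e, hper]
    simp only [d, this]
  have hsum : ∀ j, ∑ i ∈ Finset.range (j + n), d i =
      ∑ i ∈ Finset.range j, d i + ((Finset.range n).filter (fun j => ¬ C.Clean Maj j)).card := by
    intro j
    induction j with
    | zero =>
      simp only [zero_add, Finset.range_zero, Finset.sum_empty, d]
      rw [Finset.card_filter]
      apply Finset.sum_congr rfl
      intro i _
      by_cases hi : C.Clean Maj i <;> simp [hi]
    | succ j ih =>
      have e : j + 1 + n = (j + n) + 1 := by ring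
      rw [e, Finset.sum_range_succ, Finset.sum_range_succ, ih, hd]
      ring
  -- chains of consecutive edges one level below
  have hchain : ∀ k i, C.E k (u' i) (W' i) (u' (i + k)) (W' (i + k)) := by
    intro k i
    induction k with
    | zero => exact E.of_R _ (C.R_refl _)
    | succ k ih => exact ih.trans (hE' (i + k))
  refine ⟨u, fun j => W' (2 * j + b j) + 8 * ∑ i ∈ Finset.range j, d i, hu, ?_, ?_,
    fun j => (hQ j).2.2⟩
  · intro j
    have : 2 * (j + n) + b j = (2 * j + b j) + 2 * n := by ring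
    simp only [hb, this, hW', hsum]
    ring
  · intro j
    obtain ⟨h1, h2, h3⟩ := hQ j
    obtain ⟨h1', h2', h3'⟩ := hQ (j + 1)
    have e : 2 * (j + 1) + b (j + 1) = (2 * j + b j) + (2 + b (j + 1) - b j) := by omega
    have h4 := hchain (2 + b (j + 1) - b j) (2 * j + b j)
    rw [← e] at h4
    have h5 := ((E.of_R (W' (2 * j + b j)) (C.R_symm h2)).trans h4).trans
      (E.of_R (W' (2 * (j + 1) + b (j + 1))) h2')
    have h6 : C.E 5 (u j) (W' (2 * j + b j)) (u (j + 1)) (W' (2 * (j + 1) + b (j + 1))) :=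
      h5.mono (by omega) (by omega)
    simp only [Finset.sum_range_succ]
    by_cases hc : C.Clean Maj j
    · have := h6.reset (hc.2.2 _ _ (h3 hc.1) (h3' hc.2.1))
      exact this.mono le_rfl (by omega)
    · have := E.pay (s := 1) (t := 4) h6
      have hdj : d j = 1 := by simp [d, hc]
      exact this.mono le_rfl (by omega)

theorem Inv.cost {g : G} {Maj : ℕ → X → Prop} {Ψ : ℕ} (h : C.Inv g Maj 4 Ψ) : C.Cost g Ψ := by
  obtain ⟨u, W, hu, hW, hE, -⟩ := h
  have h1 := (((hE 0).trans (hE 1)).trans (hE 2)).trans (hE 3)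
  have h2 : u (3 + 1) = g • u 0 := hu 0
  have h3 : W (3 + 1) = W 0 + Ψ := hW 0
  rw [h2, h3] at h1
  have := E.cost (h1.mono (show 1 + 1 + 1 + 1 ≤ 5 by omega) le_rfl)
  simpa using this

open Classical in
/-- The main bookkeeping theorem: level l has 2^(l+2) arcs. -/
theorem levels {g : G} (Maj : ℕ → ℕ → X → Prop) (M : ℕ)
    (hper : ∀ l j q, Maj l (j + 2 ^ (l + 2)) q ↔ Maj l j q)
    (hchild : ∀ l j q, Maj l j q → Maj (l + 1) (2 * j) q ∨ Maj (l + 1) (2 * j + 1) q)
    (hnear : ∀ l j q q', Maj l j q → Maj l j q' → C.near q q')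
    (hbase : C.Inv g (Maj M) (2 ^ (M + 2)) 0) :
    C.Cost g (8 * ∑ l ∈ Finset.range M,
      ((Finset.range (2 ^ (l + 2))).filter (fun j => ¬ C.Clean (Maj l) j)).card) := by
  have key : ∀ k l, l + k = M → C.Inv g (Maj l) (2 ^ (l + 2)) (8 * ∑ l ∈ Finset.Ico l M,
      ((Finset.range (2 ^ (l + 2))).filter (fun j => ¬ C.Clean (Maj l) j)).card) := by
    intro k
    induction k with
    | zero =>
      intro l hl
      have : l = M := by omega
      subst this
      simpa using hbase
    | succ k ih =>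
      intro l hl
      have h1 := ih (l + 1) (by omega)
      have e : 2 ^ (l + 1 + 2) = 2 * 2 ^ (l + 2) := by ring
      rw [e] at h1
      have h2 := step (by positivity) (hper l) (hchild l) (hnear (l + 1)) h1
      rw [Finset.sum_eq_sum_Ico_succ_bot (show l < M by omega)]
      convert h2 using 1
      ring
  have := key M 0 (by omega)
  rw [← Finset.range_eq_Ico] at this
  exact Inv.cost this

end Cov

end Pool.Agent.Lib.MP_09d3b1_an
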