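import Mathlib
import Pool.Agent.Lib.MP_09d3b1_an.Levels

/-!
The universal covering set of a space at a base point, short steps and chains of short steps.
-/

set_option autoImplicit false

open scoped ENNReal
open Path.Homotopic

namespace Pool.Agent.Lib.MP_09d3b1_an

section Top

variable {X : Type*} [TopologicalSpace X]

/-- The homotopy class of a path. -/
abbrev cl {x y : X} (γ : Path x y) : Path.Homotopic.Quotient x y := Path.Homotopic.Quotient.mk γ

theorem cl_refl (x : X) : cl (Path.refl x) = Quotient.refl x := rfl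
theorem cl_symm {x y : X} (γ : Path x y) : cl γ.symm = (cl γ).symm := rfl
theorem cl_trans {x y z : X} (γ : Path x y) (γ' : Path y z) :
    cl (γ.trans γ') = (cl γ).trans (cl γ') := rfl
theorem cl_eq {x y : X} {γ γ' : Path x y} : cl γ = cl γ' ↔ γ.Homotopic γ' :=
  Path.Homotopic.Quotient.eq

/-- Homotopy classes of loops, multiplied by concatenation in the order of travel. -/
def Lp (x₀ : X) : Type _ := Path.Homotopic.Quotient x₀ x₀

noncomputable instance (x₀ : X) : Group (Lp x₀) where
  mul a b := Quotient.trans a b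
  one := Quotient.refl x₀
  inv a := Quotient.symm a
  mul_assoc a b c := Quotient.trans_assoc a b c
  one_mul a := Quotient.refl_trans a
  mul_one a := Quotient.trans_refl a
  inv_mul_cancel a := Quotient.symm_trans a

theorem Lp.mul_def {x₀ : X} (a b : Lp x₀) : a * b = Quotient.trans a b := rfl
theorem Lp.one_def {x₀ : X} : (1 : Lp x₀) = Quotient.refl x₀ := rfl

/-- Points of the universal covering set: an end point and a class of paths to it. -/
structure Cv (x₀ : X) where
  pt : X
  cls : Path.Homotopic.Quotient x₀ pt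

noncomputable instance (x₀ : X) : MulAction (Lp x₀) (Cv x₀) where
  smul g u := ⟨u.pt, Quotient.trans g u.cls⟩
  one_smul u := by
    change Cv.mk u.pt (Quotient.trans (Quotient.refl x₀) u.cls) = u
    rw [Quotient.refl_trans]
  mul_smul a b u := by
    change Cv.mk u.pt (Quotient.trans (Quotient.trans a b) u.cls) =
      Cv.mk u.pt (Quotient.trans a (Quotient.trans b u.cls))
    exact congrArg (Cv.mk u.pt) (Quotient.trans_assoc a b u.cls)

theorem Cv.smul_def {x₀ : X} (g : Lp x₀) (u : Cv x₀) :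
    g • u = ⟨u.pt, Quotient.trans g u.cls⟩ := rfl

theorem Cv.mk_eq_of_forall {x₀ p q : X} (γ : Path x₀ p) (γ' : Path x₀ q) (h : ∀ t, γ t = γ' t) :
    Cv.mk p (cl γ) = Cv.mk q (cl γ') := by
  have hpq : p = q := by simpa using h 1
  subst hpq
  have : γ = γ' := by ext t; exact h t
  rw [this]

theorem trans_cancel_left {a b c : X} (α : Path.Homotopic.Quotient a b)
    (β : Path.Homotopic.Quotient b c) : α.symm.trans (α.trans β) = β := by
  rw [← Quotient.trans_assoc, Quotient.symm_trans, Quotient.refl_trans]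

theorem trans_cancel_left' {a b c : X} (α : Path.Homotopic.Quotient b a)
    (β : Path.Homotopic.Quotient b c) : α.trans (α.symm.trans β) = β := by
  rw [← Quotient.trans_assoc, Quotient.trans_symm, Quotient.refl_trans]

theorem trans_cancel_right {a b c : X} (α : Path.Homotopic.Quotient a b)
    (β : Path.Homotopic.Quotient b c) : (α.trans β).trans β.symm = α := by
  rw [Quotient.trans_assoc, Quotient.trans_symm, Quotient.trans_refl]

theorem trans_cancel_right' {a b c : X} (α : Path.Homotopic.Quotient a b)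
    (β : Path.Homotopic.Quotient c b) : (α.trans β.symm).trans β = α := by
  rw [Quotient.trans_assoc, Quotient.symm_trans, Quotient.trans_refl]

theorem Cv.fibre {x₀ : X} (u v : Cv x₀) (h : u.pt = v.pt) : ∃ g : Lp x₀, g • u = v := by
  obtain ⟨p, α⟩ := u
  obtain ⟨q, β⟩ := v
  dsimp only at h
  subst h
  refine ⟨(β.trans α.symm : Path.Homotopic.Quotient x₀ x₀), ?_⟩
  exact congrArg (Cv.mk p) (trans_cancel_right' β α)

theorem Cv.free {x₀ : X} (g : Lp x₀) (u : Cv x₀) (h : g • u = u) : g = 1 := by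
  obtain ⟨p, α⟩ := u
  rw [Cv.smul_def] at h
  have h1 : Quotient.trans g α = α := by simpa using h
  have h2 := congrArg (fun β => Quotient.trans β α.symm) h1
  exact ((trans_cancel_right g α).symm.trans h2).trans (Quotient.trans_symm α)

/-- Change of base point along a class of paths. -/
noncomputable def Cv.move {x₀ x₁ : X} (α : Path.Homotopic.Quotient x₁ x₀) (u : Cv x₀) : Cv x₁ :=
  ⟨u.pt, α.trans u.cls⟩

end Top

variable {X : Type*} [PseudoEMetricSpace X]

/-- One step along a path of diameter at most δ. -/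
def Step {x₀ : X} (δ : ℝ≥0∞) (u v : Cv x₀) : Prop :=
  ∃ γ : Path u.pt v.pt, (∀ s t, edist (γ s) (γ t) ≤ δ) ∧ v.cls = u.cls.trans (cl γ)

/-- Chains of k steps. -/
def Chain {x₀ : X} (δ : ℝ≥0∞) : ℕ → Cv x₀ → Cv x₀ → Prop
  | 0, u, v => u = v
  | k + 1, u, w => ∃ v, Chain δ k u v ∧ Step δ v w

variable {x₀ : X} {δ δ' : ℝ≥0∞}

theorem Step.refl (δ : ℝ≥0∞) (u : Cv x₀) : Step δ u u :=
  ⟨Path.refl _, by simp, by rw [cl_refl, Quotient.trans_refl]⟩

theorem Step.mono {u v : Cv x₀} (h : Step δ u v) (hδ : δ ≤ δ') : Step δ' u v := by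
  obtain ⟨γ, h1, h2⟩ := h
  exact ⟨γ, fun s t => (h1 s t).trans hδ, h2⟩

theorem Step.symm {u v : Cv x₀} (h : Step δ u v) : Step δ v u := by
  obtain ⟨γ, h1, h2⟩ := h
  refine ⟨γ.symm, fun s t => by simpa using h1 _ _, ?_⟩
  rw [h2, cl_symm, trans_cancel_right]

theorem Step.edist_le {u v : Cv x₀} (h : Step δ u v) : edist u.pt v.pt ≤ δ := by
  obtain ⟨γ, h1, -⟩ := h
  simpa using h1 0 1

theorem Step.trans {u v w : Cv x₀} (h : Step δ u v) (h' : Step δ' v w) : Step (δ + δ') u w := by
  obtain ⟨γ, h1, h2⟩ := h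
  obtain ⟨γ', h1', h2'⟩ := h'
  refine ⟨γ.trans γ', ?_, by rw [h2', h2, cl_trans, Quotient.trans_assoc]⟩
  have hr : ∀ s, γ.trans γ' s ∈ Set.range γ ∪ Set.range γ' := by
    intro s
    rw [← Path.trans_range]
    exact ⟨s, rfl⟩
  intro s t
  rcases hr s with ⟨a, ha⟩ | ⟨a, ha⟩ <;> rcases hr t with ⟨b, hb⟩ | ⟨b, hb⟩ <;> rw [← ha, ← hb]
  · exact (h1 a b).trans le_self_add
  · calc edist (γ a) (γ' b) ≤ edist (γ a) v.pt + edist v.pt (γ' b) := edist_triangle _ _ _
      _ ≤ δ + δ' := add_le_add (by simpa using h1 a 1) (by simpa using h1' 0 b)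
  · calc edist (γ' a) (γ b) ≤ edist (γ' a) v.pt + edist v.pt (γ b) := edist_triangle _ _ _
      _ ≤ δ' + δ := add_le_add (by simpa using h1' a 0) (by simpa using h1 1 b)
      _ = δ + δ' := add_comm _ _
  · exact (h1' a b).trans le_add_self

theorem Step.move {x₁ : X} (α : Path.Homotopic.Quotient x₁ x₀) {u v : Cv x₀} (h : Step δ u v) :
    Step δ (u.move α) (v.move α) := by
  obtain ⟨γ, h1, h2⟩ := h
  refine ⟨γ, h1, ?_⟩
  change α.trans v.cls = (α.trans u.cls).trans (cl γ)
  rw [h2, Quotient.trans_assoc]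

theorem Step.smul (g : Lp x₀) {u v : Cv x₀} (h : Step δ u v) : Step δ (g • u) (g • v) :=
  Step.move g h

/-- Loops in balls of radius r are null-homotopic. -/
def SmallTrivial (X : Type*) [PseudoEMetricSpace X] (r : ℝ≥0∞) : Prop :=
  ∀ (x : X) (γ : Path x x), (∀ t, edist x (γ t) < r) → γ.Homotopic (Path.refl x)

/-- Points at distance < r are joined by a path in the ball of radius r. -/
def LengthLike (X : Type*) [PseudoEMetricSpace X] : Prop :=
  ∀ (x y : X) (r : ℝ≥0∞), edist x y < r → ∃ γ : Path x y, ∀ t, edist x (γ t) < r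

theorem Step.eq {r : ℝ≥0∞} (hS : SmallTrivial X r) {u v : Cv x₀} (h : Step δ u v) (hδ : δ < r)
    (hp : u.pt = v.pt) : u = v := by
  obtain ⟨p, α⟩ := u
  obtain ⟨q, β⟩ := v
  dsimp only at hp
  subst hp
  obtain ⟨γ, h1, h2⟩ := h
  dsimp only at γ h1 h2
  have h3 := hS p γ (fun t => lt_of_le_of_lt (by simpa using h1 0 t) hδ)
  rw [← cl_eq] at h3
  rw [h2, h3, cl_refl, Quotient.trans_refl]

theorem exists_step (hL : LengthLike X) (u : Cv x₀) (q : X) {η : ℝ≥0∞} (h : edist u.pt q < η) :
    ∃ v : Cv x₀, v.pt = q ∧ Step (2 * η) u v := by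
  obtain ⟨γ, hγ⟩ := hL _ _ _ h
  refine ⟨⟨q, u.cls.trans (cl γ)⟩, rfl, γ, ?_, rfl⟩
  intro s t
  calc edist (γ s) (γ t) ≤ edist u.pt (γ s) + edist u.pt (γ t) := edist_triangle_left _ _ _
    _ ≤ η + η := add_le_add (hγ s).le (hγ t).le
    _ = 2 * η := (two_mul η).symm

theorem Chain.one {u v : Cv x₀} (h : Step δ u v) : Chain δ 1 u v := ⟨u, rfl, h⟩

theorem Chain.trans {k l : ℕ} {u v w : Cv x₀} (h : Chain δ k u v) (h' : Chain δ l v w) :
    Chain δ (k + l) u w := by
  induction l generalizing w with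
  | zero => cases h'; exact h
  | succ l ih =>
    obtain ⟨y, h1, h2⟩ := h'
    exact ⟨y, ih h1, h2⟩

theorem Chain.mono {k l : ℕ} {u v : Cv x₀} (h : Chain δ k u v) (hkl : k ≤ l) :
    Chain δ l u v := by
  induction hkl with
  | refl => exact h
  | step _ ih => exact ⟨v, ih, Step.refl _ _⟩

theorem Chain.symm {k : ℕ} {u v : Cv x₀} (h : Chain δ k u v) : Chain δ k v u := by
  induction k generalizing v with
  | zero => exact Eq.symm h
  | succ k ih =>
    obtain ⟨y, h1, h2⟩ := h
    have := (Chain.one h2.symm).trans (ih h1)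
    rwa [add_comm] at this

theorem Chain.smul (g : Lp x₀) {k : ℕ} {u v : Cv x₀} (h : Chain δ k u v) :
    Chain δ k (g • u) (g • v) := by
  induction k generalizing v with
  | zero => cases h; rfl
  | succ k ih =>
    obtain ⟨y, h1, h2⟩ := h
    exact ⟨g • y, ih h1, h2.smul g⟩

theorem Chain.step {k : ℕ} {u v : Cv x₀} (h : Chain δ k u v) : Step (k * δ) u v := by
  induction k generalizing v with
  | zero => cases h; exact Step.refl _ _
  | succ k ih =>
    obtain ⟨y, h1, h2⟩ := h
    have := (ih h1).trans h2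
    simpa [add_mul] using this

theorem Chain.split {k l : ℕ} {u w : Cv x₀} (h : Chain δ (k + l) u w) :
    ∃ v, Chain δ k u v ∧ Chain δ l v w := by
  induction l generalizing w with
  | zero => exact ⟨w, h, rfl⟩
  | succ l ih =>
    obtain ⟨y, h1, h2⟩ := h
    obtain ⟨v, h3, h4⟩ := ih h1
    exact ⟨v, h3, y, h4, h2⟩

/-- Regrouping a chain into blocks of J steps. -/
theorem Chain.regroup {T J : ℕ} {u w : Cv x₀} (h : Chain δ (T * J) u w) (hJ : J * δ ≤ δ') :
    Chain δ' T u w := by
  induction T generalizing w with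
  | zero => simpa [Chain] using h
  | succ T ih =>
    rw [add_mul, one_mul] at h
    obtain ⟨v, h1, h2⟩ := h.split
    exact ⟨v, ih h1, h2.step.mono hJ⟩

/-- The covering structure at scale η. -/
noncomputable def cov (hL : LengthLike X) {r : ℝ≥0∞} (hS : SmallTrivial X r) (x₀ : X)
    (η : ℝ≥0∞) (K : ℕ) (hK : 12 ≤ K) (hKr : K * (2 * η) < r) : Cov (Lp x₀) (Cv x₀) X where
  pr := Cv.pt
  R := Chain (2 * η)
  near p q := edist p q < η
  K := K
  pr_smul _ _ := rfl
  fibre := Cv.fibre
  free := Cv.free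
  R_refl _ := rfl
  R_mono := Chain.mono
  R_trans := Chain.trans
  R_symm := Chain.symm
  R_smul g h := h.smul g
  lift u q h := by
    obtain ⟨v, h1, h2⟩ := exists_step hL u q h
    exact ⟨v, h1, Chain.one h2⟩
  inj {k u v} h hk hp := by
    refine h.step.eq hS (lt_of_le_of_lt ?_ hKr) hp
    gcongr
  K_ge := hK

/-- Points reached from the base point z by T steps through the finite set Z. -/
def Reach (Z : Set X) (δ : ℝ≥0∞) (z : X) : ℕ → Set (Cv z)
  | 0 => {⟨z, Quotient.refl z⟩}
  | T + 1 => {v | v.pt ∈ Z ∧ ∃ u ∈ Reach Z δ z T, Step δ u v}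

theorem reach_finite {r : ℝ≥0∞} (hS : SmallTrivial X r) {Z : Set X} (hZ : Z.Finite)
    (hδ : δ + δ < r) (z : X) (T : ℕ) : (Reach Z δ z T).Finite := by
  induction T with
  | zero => exact Set.finite_singleton _
  | succ T ih =>
    have : Reach Z δ z (T + 1) ⊆ ⋃ u ∈ Reach Z δ z T, ⋃ y ∈ Z, {v | v.pt = y ∧ Step δ u v} := by
      rintro v ⟨h1, u, h2, h3⟩
      simp only [Set.mem_iUnion]
      exact ⟨u, h2, v.pt, h1, rfl, h3⟩
    refine Set.Finite.subset (ih.biUnion fun u _ => hZ.biUnion fun y _ => ?_) this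
    apply Set.Subsingleton.finite
    rintro v ⟨h1, h2⟩ v' ⟨h1', h2'⟩
    exact (h2.symm.trans h2').eq hS hδ (h1.trans h1'.symm)

/-- Finiteness: the deck transformations that move some point by a chain of T steps of size η
are conjugate to finitely many loop classes, whatever the base point. -/
theorem finite_loops [CompactSpace X] (hL : LengthLike X) {r : ℝ≥0∞} (hS : SmallTrivial X r)
    {η : ℝ≥0∞} (hη : 0 < η) (hηr : 10 * η < r) (T : ℕ) :
    ∃ L : Set (Σ z : X, Path.Homotopic.Quotient z z), L.Finite ∧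
      ∀ (x₀ : X) (w : Cv x₀) (c : Lp x₀), Chain η T w (c • w) →
        ∃ p ∈ L, ∃ α : Path.Homotopic.Quotient x₀ p.1, c = (α.trans p.2).trans α.symm := by
  obtain ⟨Z, hZ, hcov⟩ : ∃ Z : Set X, Z.Finite ∧ ∀ x, ∃ z ∈ Z, edist x z < η := by
    have htb : TotallyBounded (Set.univ : Set X) := isCompact_univ.totallyBounded
    obtain ⟨Z, hZ, h⟩ := EMetric.totallyBounded_iff.1 htb η hη
    refine ⟨Z, hZ, fun x => ?_⟩
    have := h (Set.mem_univ x)
    simp only [Set.mem_iUnion] at this
    obtain ⟨z, hz, hx⟩ := this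
    exact ⟨z, hz, hx⟩
  choose net hnetZ hnet using hcov
  have hκ : ∀ x, ∃ γ : Path x (net x), ∀ s t, edist (γ s) (γ t) ≤ 2 * η := by
    intro x
    obtain ⟨γ, hγ⟩ := hL _ _ _ (hnet x)
    refine ⟨γ, fun s t => ?_⟩
    calc edist (γ s) (γ t) ≤ edist x (γ s) + edist x (γ t) := edist_triangle_left _ _ _
      _ ≤ η + η := add_le_add (hγ s).le (hγ t).le
      _ = 2 * η := (two_mul η).symm
  choose κ hκ using hκ
  have h5 : 5 * η + 5 * η < r := by
    rw [← add_mul]
    convert hηr using 2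
    norm_num
  refine ⟨⋃ z ∈ Z, {p | ∃ β : Path.Homotopic.Quotient z z, p = ⟨z, β⟩ ∧
    Cv.mk z β ∈ Reach Z (5 * η) z T}, ?_, ?_⟩
  · refine hZ.biUnion fun z _ => ?_
    have h1 : {β : Path.Homotopic.Quotient z z | Cv.mk z β ∈ Reach Z (5 * η) z T}.Finite := by
      apply Set.Finite.preimage (f := fun β : Path.Homotopic.Quotient z z => Cv.mk z β)
        _ (reach_finite hS hZ h5 z T)
      intro a _ b _ hab
      simpa using hab
    refine (h1.image (fun β => (⟨z, β⟩ : Σ z : X, Path.Homotopic.Quotient z z))).subset ?_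
    rintro p ⟨β, rfl, hβ⟩
    exact ⟨β, hβ, rfl⟩
  · intro x₀ w c hc
    let snap : Cv x₀ → Cv x₀ := fun v => ⟨net v.pt, v.cls.trans (cl (κ v.pt))⟩
    have hsnap : ∀ v, Step (2 * η) v (snap v) := fun v => ⟨κ v.pt, hκ _, rfl⟩
    let α : Path.Homotopic.Quotient x₀ (net w.pt) := (snap w).cls
    have key : ∀ k v, Chain η k w v → (snap v).move α.symm ∈ Reach Z (5 * η) (net w.pt) k := by
      intro k
      induction k with
      | zero =>
        intro v hv
        cases hv
        change Cv.mk (net w.pt) (α.symm.trans α) = _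
        rw [Quotient.symm_trans]
      | succ k ih =>
        rintro v ⟨y, h1, h2⟩
        refine ⟨hnetZ _, _, ih y h1, Step.move _ ?_⟩
        have := ((hsnap y).symm.trans h2).trans (hsnap v)
        convert this using 1
        ring
    have h1 := key T _ hc
    refine ⟨⟨net w.pt, α.symm.trans (Quotient.trans c α)⟩, ?_, α, ?_⟩
    · simp only [Set.mem_iUnion]
      refine ⟨net w.pt, hnetZ _, _, rfl, ?_⟩
      convert h1 using 1
      change _ = Cv.mk (net w.pt) (α.symm.trans ((Quotient.trans c w.cls).trans (cl (κ w.pt))))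
      rw [Quotient.trans_assoc]
    · dsimp only
      rw [trans_cancel_left', trans_cancel_right]

end Pool.Agent.Lib.MP_09d3b1_an
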