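import Mathlib

/-!
The definitions of the problem: the scaled gap potential on the circle and free homotopy
decompositions. The circle is the unit circle of the complex plane, parametrised by arc length
through `Circle.exp`.
-/

set_option autoImplicit false

open scoped ENNReal Real

namespace Pool.Agent.Lib.MP_09d3b1_an

/-- The scaled gap potential `E_ε(f)`: the integral of `ε / |y - x|^2` over the pairs of points
`x = e^{iθ}`, `y = e^{iφ}` of the unit circle with `d(f y, f x) > ε`, for arc-length measure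
(Lebesgue measure in the angles `θ, φ ∈ (0, 2π]`). -/
noncomputable def gapEnergy {N : Type*} [PseudoEMetricSpace N] (ε : ℝ) (f : C(Circle, N)) : ℝ≥0∞ :=
  ∫⁻ p in {p : ℝ × ℝ | p.1 ∈ Set.Ioc 0 (2 * π) ∧ p.2 ∈ Set.Ioc 0 (2 * π) ∧
      ENNReal.ofReal ε < edist (f (Circle.exp p.2)) (f (Circle.exp p.1))},
    ENNReal.ofReal (ε / ‖(Circle.exp p.2 : ℂ) - (Circle.exp p.1 : ℂ)‖ ^ 2)

/-- `f` has a free homotopy decomposition into `F 0, …, F (k-1)`: some `g` freely homotopic to `f`
is constant off the open arcs `e^{i(a j, b j)}`, whose closures are pairwise disjoint nondegenerate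
closed arcs, and the map that `g` induces on the j-th closed arc with its end points identified
(read on the circle through `e^{2πis} ↦ e^{i(a j + s (b j - a j))}`) is freely homotopic to `F j`. -/
def HasFreeDecomp {N : Type*} [TopologicalSpace N] (f : C(Circle, N)) (k : ℕ)
    (F : Fin k → C(Circle, N)) : Prop :=
  ∃ g : C(Circle, N), g.Homotopic f ∧ ∃ a b : Fin k → ℝ,
    (∀ j, a j < b j ∧ b j < a j + 2 * π) ∧
    (∀ i j, i ≠ j →
      Disjoint (Circle.exp '' Set.Icc (a i) (b i)) (Circle.exp '' Set.Icc (a j) (b j))) ∧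
    (∃ c : N, ∀ z : Circle, z ∉ (⋃ j, Circle.exp '' Set.Ioo (a j) (b j)) → g z = c) ∧
    ∀ j, ∃ h : C(Circle, N),
      (∀ s ∈ Set.Icc (0 : ℝ) 1,
        h (Circle.exp (2 * π * s)) = g (Circle.exp (a j + s * (b j - a j)))) ∧
      h.Homotopic (F j)

end Pool.Agent.Lib.MP_09d3b1_an
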