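import Mathlib
import Pool.Agent.Lib.MP_09d3b1_an.Defs

/-!
Majority points of dyadic arcs and the count of dirty edges in terms of the gap potential.
-/

set_option autoImplicit false

open scoped ENNReal Real
open MeasureTheory Set

namespace Pool.Agent.Lib.MP_09d3b1_an

variable {X : Type*} [PseudoEMetricSpace X]

/-- Length of the arcs of level l. -/
noncomputable def len (l : ℕ) : ℝ := 2 * π / 2 ^ (l + 2)

theorem len_pos (l : ℕ) : 0 < len l := by unfold len; have := Real.pi_pos; positivity

theorem len_succ (l : ℕ) : len l = 2 * len (l + 1) := by unfold len; field_simp; ring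

theorem len_mul (l : ℕ) : ((2 ^ (l + 2) : ℕ) : ℝ) * len l = 2 * π := by
  unfold len; push_cast; field_simp

theorem two_len_le (l : ℕ) : 2 * len l ≤ π := by
  induction l with
  | zero => unfold len; norm_num; linarith
  | succ l ih => have := len_succ l; have := len_pos (l + 1); linarith

/-- The part of the j-th arc of level l that is mapped e-close to q. -/
def part (f : C(Circle, X)) (e : ℝ≥0∞) (l j : ℕ) (q : X) : Set ℝ :=
  Ioc (j * len l) ((j + 1) * len l) ∩ {s | edist (f (Circle.exp s)) q ≤ e}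

/-- More than half of the j-th arc of level l is mapped e-close to q. -/
def Maj (f : C(Circle, X)) (e : ℝ≥0∞) (l j : ℕ) (q : X) : Prop :=
  ENNReal.ofReal (len l / 2) < volume (part f e l j q)

variable {f : C(Circle, X)} {e : ℝ≥0∞}

theorem measurableSet_part (l j : ℕ) (q : X) : MeasurableSet (part f e l j q) := by
  refine measurableSet_Ioc.inter (IsClosed.measurableSet ?_)
  exact isClosed_le (by fun_prop) continuous_const

theorem volume_arc (l j : ℕ) :
    volume (Ioc (j * len l) ((j + 1) * len l)) = ENNReal.ofReal (len l) := by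
  rw [Real.volume_Ioc]; congr 1; ring

theorem half_add_half (l : ℕ) :
    ENNReal.ofReal (len l / 2) + ENNReal.ofReal (len l / 2) = ENNReal.ofReal (len l) := by
  have := len_pos l
  rw [← ENNReal.ofReal_add (by positivity) (by positivity)]; congr 1; ring

theorem maj_periodic (l j : ℕ) (q : X) : Maj f e l (j + 2 ^ (l + 2)) q ↔ Maj f e l j q := by
  have : part f e l j q = (fun s => s + 2 * π) ⁻¹' part f e l (j + 2 ^ (l + 2)) q := by
    ext s
    have h := len_mul l
    simp only [part, mem_inter_iff, mem_Ioc, mem_ofPred_eq, mem_preimage, Circle.exp_add_two_pi,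
      Nat.cast_add]
    constructor
    · rintro ⟨⟨h1, h2⟩, h3⟩
      exact ⟨⟨by linarith, by linarith⟩, h3⟩
    · rintro ⟨⟨h1, h2⟩, h3⟩
      exact ⟨⟨by linarith, by linarith⟩, h3⟩
  unfold Maj
  rw [this, measure_preimage_add_right]

theorem maj_child (l j : ℕ) (q : X) (h : Maj f e l j q) :
    Maj f e (l + 1) (2 * j) q ∨ Maj f e (l + 1) (2 * j + 1) q := by
  by_contra hc
  rw [not_or] at hc
  obtain ⟨h1, h2⟩ := hc
  unfold Maj at h h1 h2
  rw [not_lt] at h1 h2
  have hsub : part f e l j q ⊆ part f e (l + 1) (2 * j) q ∪ part f e (l + 1) (2 * j + 1) q := by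
    rintro s ⟨⟨a1, a2⟩, a3⟩
    rw [len_succ] at a1 a2
    by_cases hs : s ≤ (2 * j + 1) * len (l + 1)
    · left
      refine ⟨⟨?_, ?_⟩, a3⟩ <;> push_cast <;> linarith
    · right
      refine ⟨⟨?_, ?_⟩, a3⟩ <;> push_cast <;> linarith
  have := (measure_mono hsub).trans ((measure_union_le _ _).trans (add_le_add h1 h2))
  rw [half_add_half] at this
  have e1 : len l / 2 = len (l + 1) := by rw [len_succ l]; ring
  rw [e1] at h
  exact absurd (h.trans_le this) (lt_irrefl _)

theorem maj_near (l j : ℕ) (q q' : X) (h : Maj f e l j q) (h' : Maj f e l j q') :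
    edist q q' ≤ 2 * e := by
  have : ¬ Disjoint (part f e l j q) (part f e l j q') := by
    intro hd
    have h1 := measure_union (μ := volume) hd (measurableSet_part l j q')
    have h2 : volume (part f e l j q ∪ part f e l j q') ≤ ENNReal.ofReal (len l) := by
      rw [← volume_arc l j]
      exact measure_mono (union_subset inter_subset_left inter_subset_left)
    have h3 := ENNReal.add_lt_add h h'
    rw [half_add_half, ← h1] at h3
    exact absurd (h3.trans_le h2) (lt_irrefl _)
  obtain ⟨s, hs, hs'⟩ := not_disjoint_iff.1 this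
  calc edist q q' ≤ edist (f (Circle.exp s)) q + edist (f (Circle.exp s)) q' :=
        edist_triangle_left _ _ _
    _ ≤ e + e := add_le_add hs.2 hs'.2
    _ = 2 * e := (two_mul e).symm

theorem maj_of_forall (l j : ℕ) (q : X)
    (h : ∀ s ∈ Ioc (j * len l) ((j + 1) * len l), edist (f (Circle.exp s)) q ≤ e) :
    Maj f e l j q := by
  have : part f e l j q = Ioc (j * len l) ((j + 1) * len l) := inter_eq_left.2 h
  unfold Maj
  rw [this, volume_arc]
  have := len_pos l
  exact (ENNReal.ofReal_lt_ofReal_iff this).2 (by linarith)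

/-- The far points in a window around s. -/
def win (f : C(Circle, X)) (e : ℝ≥0∞) (l : ℕ) (s : ℝ) : Set ℝ :=
  Ioo (s - 2 * len l) (s + 2 * len l) ∩ {t | e < edist (f (Circle.exp t)) (f (Circle.exp s))}

theorem measurableSet_win (l : ℕ) (s : ℝ) : MeasurableSet (win f e l s) := by
  refine measurableSet_Ioo.inter (IsOpen.measurableSet ?_)
  exact isOpen_lt continuous_const (by fun_prop)

theorem quarter (l : ℕ) : ENNReal.ofReal (len l ^ 2 / 4) =
    ENNReal.ofReal (len l / 2) * ENNReal.ofReal (len l / 2) := by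
  have := len_pos l
  rw [← ENNReal.ofReal_mul (by positivity)]; congr 1; ring

theorem heavy_of_bad (l j : ℕ) (h : ¬ ∃ q, Maj f e l j q) :
    ENNReal.ofReal (len l ^ 2 / 4) ≤
      ∫⁻ s in Ioc (j * len l) ((j + 1) * len l), volume (win f e l s) := by
  have hl := len_pos l
  have h1 : ∀ s ∈ Ioc (j * len l) ((j + 1) * len l),
      ENNReal.ofReal (len l / 2) ≤ volume (win f e l s) := by
    intro s hs
    have h2 : volume (part f e l j (f (Circle.exp s))) ≤ ENNReal.ofReal (len l / 2) :=
      not_lt.1 fun hc => h ⟨_, hc⟩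
    have hsub : Ioc (j * len l) ((j + 1) * len l) ⊆
        part f e l j (f (Circle.exp s)) ∪ win f e l s := by
      intro t ht
      by_cases hts : edist (f (Circle.exp t)) (f (Circle.exp s)) ≤ e
      · exact Or.inl ⟨ht, hts⟩
      · exact Or.inr ⟨⟨by linarith [hs.2, ht.1], by linarith [hs.1, ht.2]⟩, not_le.1 hts⟩
    have h3 := (measure_mono (μ := volume) hsub).trans (measure_union_le _ _)
    rw [volume_arc, ← half_add_half] at h3
    exact (ENNReal.add_le_add_iff_left ENNReal.ofReal_ne_top).1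
      (h3.trans (add_le_add h2 le_rfl))
  calc ENNReal.ofReal (len l ^ 2 / 4)
      ≤ ENNReal.ofReal (len l / 2) * volume (Ioc (j * len l) ((j + 1) * len l)) := by
        rw [quarter, volume_arc]
        gcongr
        linarith
    _ = ∫⁻ _ in Ioc (j * len l) ((j + 1) * len l), ENNReal.ofReal (len l / 2) := by
        rw [setLIntegral_const]
    _ ≤ _ := setLIntegral_mono' measurableSet_Ioc h1

theorem heavy_of_far (l j : ℕ) {q q' : X} (h : Maj f e l j q) (h' : Maj f e l (j + 1) q')
    (hfar : 3 * e < edist q q') :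
    ENNReal.ofReal (len l ^ 2 / 4) ≤
      ∫⁻ s in Ioc (j * len l) ((j + 1) * len l), volume (win f e l s) := by
  have hl := len_pos l
  have h1 : ∀ s ∈ part f e l j q, ENNReal.ofReal (len l / 2) ≤ volume (win f e l s) := by
    intro s hs
    refine h'.le.trans (measure_mono ?_)
    intro t ht
    obtain ⟨⟨a1, a2⟩, a3⟩ := hs
    obtain ⟨⟨b1, b2⟩, b3⟩ := ht
    push_cast at b1 b2
    refine ⟨⟨by linarith, by linarith⟩, ?_⟩
    by_contra hc
    have hc' : edist (f (Circle.exp t)) (f (Circle.exp s)) ≤ e := not_lt.1 hc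
    have : edist q q' ≤ 3 * e :=
      calc edist q q' ≤ edist q (f (Circle.exp s)) + edist (f (Circle.exp s)) (f (Circle.exp t))
            + edist (f (Circle.exp t)) q' := edist_triangle4 _ _ _ _
        _ ≤ e + e + e := by
          rw [edist_comm q, edist_comm (f (Circle.exp s)) (f (Circle.exp t))]
          exact add_le_add (add_le_add a3 hc') b3
        _ = 3 * e := by ring
    exact absurd (hfar.trans_le this) (lt_irrefl _)
  calc ENNReal.ofReal (len l ^ 2 / 4)
      ≤ ENNReal.ofReal (len l / 2) * volume (part f e l j q) := by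
        rw [quarter]
        exact mul_le_mul_right h.le _
    _ = ∫⁻ _ in part f e l j q, ENNReal.ofReal (len l / 2) := by
        rw [setLIntegral_const]
    _ ≤ ∫⁻ s in part f e l j q, volume (win f e l s) :=
        setLIntegral_mono' (measurableSet_part l j q) h1
    _ ≤ _ := lintegral_mono_set inter_subset_left

theorem sum_arcs (F : ℝ → ℝ≥0∞) (l a n : ℕ) :
    ∑ j ∈ Finset.range n, ∫⁻ s in Ioc ((j + a : ℕ) * len l) (((j + a : ℕ) + 1) * len l), F s =
      ∫⁻ s in Ioc (a * len l) ((n + a : ℕ) * len l), F s := by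
  have hl := len_pos l
  induction n with
  | zero => simp
  | succ n ih =>
    rw [Finset.sum_range_succ, ih, ← lintegral_union measurableSet_Ioc, Ioc_union_Ioc_eq_Ioc]
    · congr 3
      push_cast
      ring
    · push_cast
      nlinarith [(Nat.cast_nonneg n : (0 : ℝ) ≤ n)]
    · linarith
    · exact Ioc_disjoint_Ioc_of_le le_rfl

/-- The kernel of the gap potential without the factor ε. -/
noncomputable def ker (f : C(Circle, X)) (e : ℝ≥0∞) (s t : ℝ) : ℝ≥0∞ :=
  indicator {t | e < edist (f (Circle.exp t)) (f (Circle.exp s))}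
    (fun t => ENNReal.ofReal (1 / ‖(Circle.exp t : ℂ) - (Circle.exp s : ℂ)‖ ^ 2)) t

theorem geom_sum_le (d : ℝ) (hd : 0 < d) (M : ℕ) :
    ∑ l ∈ Finset.range M, (if d < 2 * len l then 1 / len l ^ 2 else 0) ≤ 16 / 3 * (1 / d ^ 2) := by
  have h1 : ∀ M, ∑ l ∈ Finset.range M, 1 / len l ^ 2 ≤ 1 / 3 * (1 / len M ^ 2) := by
    intro M
    induction M with
    | zero => have := len_pos 0; simp only [Finset.range_zero, Finset.sum_empty]; positivity
    | succ M ih =>
      have := len_pos (M + 1)
      have e1 : 1 / len (M + 1) ^ 2 = 4 * (1 / len M ^ 2) := by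
        rw [len_succ M]; field_simp; ring
      rw [Finset.sum_range_succ, e1]
      linarith
  induction M with
  | zero => simp only [Finset.range_zero, Finset.sum_empty]; positivity
  | succ M ih =>
    by_cases h : d < 2 * len M
    · have h2 : ∑ l ∈ Finset.range (M + 1), (if d < 2 * len l then 1 / len l ^ 2 else 0) ≤
          ∑ l ∈ Finset.range (M + 1), 1 / len l ^ 2 := by
        apply Finset.sum_le_sum
        intro l _
        have := len_pos l
        split_ifs
        · exact le_rfl
        · positivity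
      have h3 := h1 M
      rw [Finset.sum_range_succ (fun l => 1 / len l ^ 2)] at h2
      have h4 : 1 / len M ^ 2 ≤ 4 * (1 / d ^ 2) := by
        have := len_pos M
        rw [mul_one_div, div_le_div_iff₀ (by positivity) (by positivity)]
        nlinarith
      linarith
    · rw [Finset.sum_range_succ, if_neg h, add_zero]
      exact ih

theorem norm_exp_sub_le (s t : ℝ) : ‖(Circle.exp t : ℂ) - (Circle.exp s : ℂ)‖ ≤ |t - s| := by
  have := (lipschitzWith_circleMap 0 1).dist_le_mul t s
  simpa [circleMap, dist_eq_norm, Real.dist_eq] using this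

theorem window_eq {F : ℝ → ℝ≥0∞} (hF : ∀ t, F (t + 2 * π) = F t) (a b : ℝ) :
    ∫⁻ t in Ioc a (a + 2 * π), F t = ∫⁻ t in Ioc b (b + 2 * π), F t := by
  have hpi : 0 < 2 * π := by have := Real.pi_pos; positivity
  have : VAddInvariantMeasure (AddSubgroup.zmultiples (2 * π)) ℝ volume :=
    ⟨fun c s _ => measure_preimage_add _ _ _⟩
  exact IsAddFundamentalDomain.setLIntegral_eq (G := AddSubgroup.zmultiples (2 * π))
    (μ := volume) (isAddFundamentalDomain_Ioc hpi a) (isAddFundamentalDomain_Ioc hpi b) F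
    (Function.Periodic.map_vadd_zmultiples hF)

theorem pointwise (M : ℕ) (s : ℝ) :
    ∑ l ∈ Finset.range M, ENNReal.ofReal (1 / len l ^ 2) * volume (win f e l s) ≤
      ENNReal.ofReal (16 / 3) * ∫⁻ t in Ioc 0 (2 * π), ker f e s t := by
  have h0 : ∫⁻ t in Ioc 0 (2 * π), ker f e s t =
      ∫⁻ t in Ioc (s - π) (s - π + 2 * π), ker f e s t := by
    have := window_eq (F := ker f e s) (fun t => by
      simp only [ker, indicator, mem_ofPred_eq, Circle.exp_add_two_pi]) 0 (s - π)
    rwa [zero_add] at this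
  rw [h0, ← lintegral_const_mul' _ _ ENNReal.ofReal_ne_top]
  have h1 : ∀ l, ENNReal.ofReal (1 / len l ^ 2) * volume (win f e l s) =
      ∫⁻ t in Ioc (s - π) (s - π + 2 * π),
        indicator (win f e l s) (fun _ => ENNReal.ofReal (1 / len l ^ 2)) t := by
    intro l
    rw [lintegral_indicator_const (measurableSet_win l s),
      Measure.restrict_apply (measurableSet_win l s), inter_eq_left.2]
    rintro t ⟨⟨a1, a2⟩, -⟩
    have := two_len_le l
    exact ⟨by linarith, by linarith⟩
  simp only [h1]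
  rw [← lintegral_finsetSum _ (fun l _ => measurable_const.indicator (measurableSet_win l s))]
  apply lintegral_mono
  intro t
  dsimp only
  by_cases ht : e < edist (f (Circle.exp t)) (f (Circle.exp s))
  · have hne : Circle.exp t ≠ Circle.exp s := by
      intro hc
      rw [hc, edist_self] at ht
      exact not_lt_bot ht
    have hn : 0 < ‖(Circle.exp t : ℂ) - (Circle.exp s : ℂ)‖ := by
      rw [norm_pos_iff, sub_ne_zero]
      exact fun hc => hne (Circle.ext hc)
    have hle := norm_exp_sub_le s t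
    have hd : 0 < |t - s| := hn.trans_le hle
    have h2 : ∀ l, indicator (win f e l s) (fun _ => ENNReal.ofReal (1 / len l ^ 2)) t =
        ENNReal.ofReal (if |t - s| < 2 * len l then 1 / len l ^ 2 else 0) := by
      intro l
      have : t ∈ win f e l s ↔ |t - s| < 2 * len l := by
        simp only [win, mem_inter_iff, mem_Ioo, mem_ofPred_eq, ht, and_true, abs_lt]
        constructor <;> rintro ⟨a1, a2⟩ <;> constructor <;> linarith
      by_cases hw : |t - s| < 2 * len l
      · rw [indicator_of_mem (this.2 hw), if_pos hw]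
      · rw [indicator_of_notMem (fun hc => hw (this.1 hc)), if_neg hw, ENNReal.ofReal_zero]
    simp only [h2]
    rw [← ENNReal.ofReal_sum_of_nonneg (fun l _ => by
      have := len_pos l
      split_ifs
      · positivity
      · exact le_rfl)]
    unfold ker
    rw [indicator_of_mem (show t ∈ {t | e < edist (f (Circle.exp t)) (f (Circle.exp s))} from ht),
      ← ENNReal.ofReal_mul (by norm_num)]
    apply ENNReal.ofReal_le_ofReal
    refine (geom_sum_le _ hd M).trans ?_
    gcongr
  · have h2 : ∀ l, indicator (win f e l s) (fun _ => ENNReal.ofReal (1 / len l ^ 2)) t = 0 :=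
      fun l => indicator_of_notMem (fun hc => ht hc.2) _
    simp only [h2, Finset.sum_const_zero]
    exact zero_le

theorem energy_eq (ε : ℝ) (hε : 0 ≤ ε) (f : C(Circle, X)) :
    ENNReal.ofReal ε * ∫⁻ s in Ioc 0 (2 * π), ∫⁻ t in Ioc 0 (2 * π), ker f (ENNReal.ofReal ε) s t
      = gapEnergy ε f := by
  have hS : MeasurableSet {p : ℝ × ℝ |
      ENNReal.ofReal ε < edist (f (Circle.exp p.2)) (f (Circle.exp p.1))} :=
    (isOpen_lt continuous_const (by fun_prop)).measurableSet
  have hm : Measurable fun p : ℝ × ℝ => ker f (ENNReal.ofReal ε) p.1 p.2 := by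
    have : (fun p : ℝ × ℝ => ker f (ENNReal.ofReal ε) p.1 p.2) =
        indicator {p : ℝ × ℝ | ENNReal.ofReal ε < edist (f (Circle.exp p.2)) (f (Circle.exp p.1))}
          (fun p => ENNReal.ofReal (1 / ‖(Circle.exp p.2 : ℂ) - (Circle.exp p.1 : ℂ)‖ ^ 2)) := by
      funext p
      simp only [ker, indicator, mem_ofPred_eq]
    rw [this]
    refine Measurable.indicator (ENNReal.measurable_ofReal.comp ?_) hS
    refine Measurable.const_div (Continuous.measurable ?_) _
    simp only [Circle.coe_exp]
    fun_prop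
  rw [← lintegral_prod _ hm.aemeasurable, Measure.prod_restrict,
    ← lintegral_const_mul' _ _ ENNReal.ofReal_ne_top]
  unfold gapEnergy
  have e1 : {p : ℝ × ℝ | p.1 ∈ Set.Ioc 0 (2 * π) ∧ p.2 ∈ Set.Ioc 0 (2 * π) ∧
      ENNReal.ofReal ε < edist (f (Circle.exp p.2)) (f (Circle.exp p.1))} =
      {p : ℝ × ℝ | ENNReal.ofReal ε < edist (f (Circle.exp p.2)) (f (Circle.exp p.1))} ∩
        (Ioc 0 (2 * π) ×ˢ Ioc 0 (2 * π)) := by
    ext p
    simp only [mem_ofPred_eq, mem_inter_iff, mem_prod]
    tauto
  rw [e1, ← Measure.restrict_restrict hS, ← lintegral_indicator hS]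
  apply lintegral_congr
  intro p
  simp only [ker, indicator, mem_ofPred_eq]
  split_ifs
  · rw [← ENNReal.ofReal_mul hε, mul_one_div]
  · simp

/-- The count of the edges with a bad end or far majority points. -/
theorem count_le (ε : ℝ) (hε : 0 ≤ ε) (f : C(Circle, X)) (M : ℕ) (D : ℕ → Finset ℕ)
    (hD : ∀ l, D l ⊆ Finset.range (2 ^ (l + 2)))
    (hD' : ∀ l, ∀ j ∈ D l, (¬ ∃ q, Maj f (ENNReal.ofReal ε) l j q) ∨
      (¬ ∃ q, Maj f (ENNReal.ofReal ε) l (j + 1) q) ∨
      ∃ q q', Maj f (ENNReal.ofReal ε) l j q ∧ Maj f (ENNReal.ofReal ε) l (j + 1) q' ∧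
        3 * ENNReal.ofReal ε < edist q q') :
    ENNReal.ofReal ε * ((∑ l ∈ Finset.range M, (D l).card : ℕ) : ℝ≥0∞) ≤ 86 * gapEnergy ε f := by
  set e := ENNReal.ofReal ε with he
  have hpi := Real.pi_pos
  have h1 : ∀ l, ((D l).card : ℝ≥0∞) ≤
      8 * ∫⁻ s in Ioc 0 (4 * π), ENNReal.ofReal (1 / len l ^ 2) * volume (win f e l s) := by
    intro l
    have hl := len_pos l
    have h2 : ∀ j ∈ D l, ENNReal.ofReal (len l ^ 2 / 4) ≤
        (∫⁻ s in Ioc ((j + 0 : ℕ) * len l) (((j + 0 : ℕ) + 1) * len l), volume (win f e l s)) +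
        ∫⁻ s in Ioc ((j + 1 : ℕ) * len l) (((j + 1 : ℕ) + 1) * len l), volume (win f e l s) := by
      intro j hj
      rcases hD' l j hj with h | h | ⟨q, q', a1, a2, a3⟩
      · exact (heavy_of_bad l j h).trans le_self_add
      · exact (heavy_of_bad l (j + 1) h).trans le_add_self
      · exact (heavy_of_far l j a1 a2 a3).trans le_self_add
    have h3 := Finset.card_nsmul_le_sum _ _ _ h2
    have h4 := h3.trans (Finset.sum_le_sum_of_subset (hD l))
    rw [Finset.sum_add_distrib, sum_arcs, sum_arcs] at h4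
    have hm := len_mul l
    have h2l := two_len_le l
    have h5 : ∀ a : ℕ, a ≤ 1 →
        ∫⁻ s in Ioc (a * len l) ((2 ^ (l + 2) + a : ℕ) * len l), volume (win f e l s) ≤
        ∫⁻ s in Ioc 0 (4 * π), volume (win f e l s) := by
      intro a ha
      have ha' : (a : ℝ) ≤ 1 := by exact_mod_cast ha
      apply lintegral_mono_set
      apply Ioc_subset_Ioc (by positivity)
      rw [Nat.cast_add]
      nlinarith
    have h6 := h4.trans (add_le_add (h5 0 (by omega)) (h5 1 le_rfl))
    rw [lintegral_const_mul' _ _ ENNReal.ofReal_ne_top]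
    have h7 : (4 : ℝ≥0∞) * ENNReal.ofReal (1 / len l ^ 2) * ENNReal.ofReal (len l ^ 2 / 4) = 1 := by
      rw [mul_assoc, ← ENNReal.ofReal_mul (by positivity), ← ENNReal.ofReal_ofNat 4,
        ← ENNReal.ofReal_mul (by positivity), ← ENNReal.ofReal_one]
      congr 1
      field_simp
    calc ((D l).card : ℝ≥0∞) = (4 * ENNReal.ofReal (1 / len l ^ 2)) *
          ((D l).card • ENNReal.ofReal (len l ^ 2 / 4)) := by
          rw [nsmul_eq_mul, mul_left_comm, h7, mul_one]
      _ ≤ (4 * ENNReal.ofReal (1 / len l ^ 2)) * ((∫⁻ s in Ioc 0 (4 * π), volume (win f e l s)) +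
          ∫⁻ s in Ioc 0 (4 * π), volume (win f e l s)) := by gcongr
      _ = _ := by ring
  have h8 : ∑ l ∈ Finset.range M,
      ∫⁻ s in Ioc 0 (4 * π), ENNReal.ofReal (1 / len l ^ 2) * volume (win f e l s) ≤
      ∫⁻ s in Ioc 0 (4 * π),
        ∑ l ∈ Finset.range M, ENNReal.ofReal (1 / len l ^ 2) * volume (win f e l s) := by
    induction M with
    | zero => simp
    | succ M ih =>
      simp only [Finset.sum_range_succ]
      exact (add_le_add ih le_rfl).trans (le_lintegral_add _ _)
  have h9 : ∫⁻ s in Ioc 0 (4 * π), ∫⁻ t in Ioc 0 (2 * π), ker f e s t ≤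
      2 * ∫⁻ s in Ioc 0 (2 * π), ∫⁻ t in Ioc 0 (2 * π), ker f e s t := by
    have e1 : Ioc 0 (4 * π) = Ioc 0 (2 * π) ∪ Ioc (2 * π) (2 * π + 2 * π) := by
      rw [Ioc_union_Ioc_eq_Ioc (by linarith) (by linarith)]
      congr 1
      ring
    have e2 := window_eq (F := fun s => ∫⁻ t in Ioc 0 (2 * π), ker f e s t) (fun s => by
      simp only [ker, Circle.exp_add_two_pi]) (2 * π) 0
    rw [zero_add] at e2
    rw [e1, two_mul (∫⁻ s in Ioc 0 (2 * π), ∫⁻ t in Ioc 0 (2 * π), ker f e s t)]
    refine (lintegral_union_le _ _ _).trans ?_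
    rw [e2]
  have h10 : ((∑ l ∈ Finset.range M, (D l).card : ℕ) : ℝ≥0∞) ≤
      86 * ∫⁻ s in Ioc 0 (2 * π), ∫⁻ t in Ioc 0 (2 * π), ker f e s t := by
    push_cast
    calc ∑ l ∈ Finset.range M, ((D l).card : ℝ≥0∞)
        ≤ ∑ l ∈ Finset.range M, 8 *
          ∫⁻ s in Ioc 0 (4 * π), ENNReal.ofReal (1 / len l ^ 2) * volume (win f e l s) :=
          Finset.sum_le_sum fun l _ => h1 l
      _ ≤ 8 * ∫⁻ s in Ioc 0 (4 * π),
          ENNReal.ofReal (16 / 3) * ∫⁻ t in Ioc 0 (2 * π), ker f e s t := by
          rw [← Finset.mul_sum]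
          gcongr
          exact h8.trans (lintegral_mono fun s => pointwise M s)
      _ ≤ 8 * (ENNReal.ofReal (16 / 3) *
          (2 * ∫⁻ s in Ioc 0 (2 * π), ∫⁻ t in Ioc 0 (2 * π), ker f e s t)) := by
          rw [lintegral_const_mul' _ _ ENNReal.ofReal_ne_top]
          gcongr
      _ = (8 * ENNReal.ofReal (16 / 3) * 2) *
          ∫⁻ s in Ioc 0 (2 * π), ∫⁻ t in Ioc 0 (2 * π), ker f e s t := by ring
      _ ≤ _ := by
          gcongr
          rw [← ENNReal.ofReal_ofNat 8, ← ENNReal.ofReal_ofNat 2, ← ENNReal.ofReal_ofNat 86,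
            ← ENNReal.ofReal_mul (by norm_num), ← ENNReal.ofReal_mul (by norm_num)]
          apply ENNReal.ofReal_le_ofReal
          norm_num
  rw [← energy_eq ε hε f, mul_left_comm]
  gcongr

end Pool.Agent.Lib.MP_09d3b1_an
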