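import Mathlib
import Pool.Agent.Lib.MP_09d3b1_an.Defs
import Pool.Agent.Lib.MP_09d3b1_an.Cover

/-!
From loops in the fundamental group to maps of the circle and their decompositions.
-/

set_option autoImplicit false

open scoped ENNReal Real unitInterval
open Path.Homotopic

namespace Pool.Agent.Lib.MP_09d3b1_an

variable {X : Type*} [TopologicalSpace X]

theorem exp_unit_surj (z : Circle) : ∃ s : I, Circle.exp (2 * π * s) = z := by
  have hpi := Real.pi_pos
  obtain ⟨θ, hθ, rfl⟩ := Circle.surjOn_exp_neg_pi_pi (Set.mem_univ z)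
  by_cases h : 0 ≤ θ
  · refine ⟨⟨θ / (2 * π), by positivity, ?_⟩, ?_⟩
    · rw [div_le_one (by positivity)]; linarith [hθ.2]
    · congr 1
      field_simp
  · refine ⟨⟨(θ + 2 * π) / (2 * π), ?_, ?_⟩, ?_⟩
    · apply div_nonneg _ (by positivity); linarith [hθ.1]
    · rw [div_le_one (by positivity)]; linarith
    · rw [← Circle.exp_add_two_pi θ]
      congr 1
      field_simp

theorem exp_unit_eq {s t : I} (h : Circle.exp (2 * π * s) = Circle.exp (2 * π * t)) :
    s = t ∨ (s = 0 ∧ t = 1) ∨ (s = 1 ∧ t = 0) := by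
  have hpi := Real.pi_pos
  obtain ⟨m, hm⟩ := Circle.exp_eq_exp.1 h
  have h1 : (s : ℝ) = t + m := by
    have : 2 * π * (s : ℝ) = 2 * π * (t + m) := by rw [hm]; ring
    exact mul_left_cancel₀ (by positivity) this
  have hs := s.2
  have ht := t.2
  have h2 : (m : ℝ) ≤ 1 := by linarith [hs.2, ht.1]
  have h3 : (-1 : ℝ) ≤ m := by linarith [hs.1, ht.2]
  have h2' : m ≤ 1 := by exact_mod_cast h2
  have h3' : -1 ≤ m := by exact_mod_cast h3
  have : m = 0 ∨ m = 1 ∨ m = -1 := by omega
  rcases this with rfl | rfl | rfl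
  · left; ext; simpa using h1
  · right; right
    push_cast at h1
    constructor
    · exact Subtype.ext (show (s : ℝ) = 1 by linarith [hs.1, hs.2, ht.1, ht.2])
    · exact Subtype.ext (show (t : ℝ) = 0 by linarith [hs.1, hs.2, ht.1, ht.2])
  · right; left
    push_cast at h1
    constructor
    · exact Subtype.ext (show (s : ℝ) = 0 by linarith [hs.1, hs.2, ht.1, ht.2])
    · exact Subtype.ext (show (t : ℝ) = 1 by linarith [hs.1, hs.2, ht.1, ht.2])

theorem exists_descend {P : Type*} [TopologicalSpace P] [CompactSpace P] [T2Space P]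
    (H : C(P × I, X)) (hH : ∀ t, H (t, 0) = H (t, 1)) :
    ∃ H' : C(P × Circle, X), ∀ t (s : I), H' (t, Circle.exp (2 * π * s)) = H (t, s) := by
  let q : C(P × I, P × Circle) := ⟨fun p => (p.1, Circle.exp (2 * π * p.2)), by fun_prop⟩
  have hq : Topology.IsQuotientMap q := by
    apply IsClosedMap.isQuotientMap q.continuous.isClosedMap q.continuous
    rintro ⟨t, z⟩
    obtain ⟨s, rfl⟩ := exp_unit_surj z
    exact ⟨(t, s), rfl⟩
  have hfac : Function.FactorsThrough H q := by
    rintro ⟨t, s⟩ ⟨t', s'⟩ h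
    simp only [q, ContinuousMap.coe_mk, Prod.mk.injEq] at h
    obtain ⟨rfl, h⟩ := h
    rcases exp_unit_eq h with rfl | ⟨rfl, rfl⟩ | ⟨rfl, rfl⟩
    · rfl
    · exact hH t
    · exact (hH t).symm
  refine ⟨hq.lift H hfac, fun t s => ?_⟩
  have := congrArg (fun F : C(P × I, X) => F (t, s)) (hq.lift_comp H hfac)
  exact this

theorem homotopic_of_square {f g : C(Circle, X)} (H : C(I × I, X)) (hH : ∀ t, H (t, 0) = H (t, 1))
    (h0 : ∀ s : I, H (0, s) = f (Circle.exp (2 * π * s)))
    (h1 : ∀ s : I, H (1, s) = g (Circle.exp (2 * π * s))) : f.Homotopic g := by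
  obtain ⟨H', hH'⟩ := exists_descend H hH
  refine ⟨⟨H', ?_, ?_⟩⟩
  · intro z
    obtain ⟨s, rfl⟩ := exp_unit_surj z
    exact (hH' 0 s).trans (h0 s)
  · intro z
    obtain ⟨s, rfl⟩ := exp_unit_surj z
    exact (hH' 1 s).trans (h1 s)

/-- The circle map h is the loop γ read on the circle. -/
def Rep {x : X} (h : C(Circle, X)) (γ : Path x x) : Prop :=
  ∀ s : I, h (Circle.exp (2 * π * s)) = γ s

theorem exists_rep {x : X} (γ : Path x x) : ∃ h : C(Circle, X), Rep h γ := by
  obtain ⟨H', hH'⟩ := exists_descend (P := Unit) (X := X)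
    ⟨fun p => γ p.2, by fun_prop⟩ (by simp)
  exact ⟨⟨fun z => H' ((), z), by fun_prop⟩, fun s => hH' () s⟩

theorem Rep.homotopic {x : X} {h h' : C(Circle, X)} {γ γ' : Path x x} (hr : Rep h γ)
    (hr' : Rep h' γ') (hh : γ.Homotopic γ') : h.Homotopic h' := by
  obtain ⟨H⟩ := hh
  refine homotopic_of_square ⟨H, H.continuous⟩ ?_ ?_ ?_
  · intro t
    exact (H.source t).trans (H.target t).symm
  · intro s
    rw [hr s]
    exact H.apply_zero s
  · intro s
    rw [hr' s]
    exact H.apply_one s

theorem Rep.conj {x y : X} {h h' : C(Circle, X)} (α : Path x y) (γ : Path y y)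
    (hr : Rep h ((α.trans γ).trans α.symm)) (hr' : Rep h' γ) : h.Homotopic h' := by
  refine homotopic_of_square ⟨fun p => ((α.trans γ).trans α.symm).extend
    ((p.1 : ℝ) / 4 + p.2 * (1 - 3 * (p.1 : ℝ) / 4)), by fun_prop⟩ ?_ ?_ ?_
  · intro t
    have ht := t.2
    simp only [ContinuousMap.coe_mk, Set.Icc.coe_zero, Set.Icc.coe_one]
    rw [Path.extend_trans_of_le_half _ _ (by linarith [ht.2]),
      Path.extend_trans_of_le_half _ _ (by linarith [ht.2]),
      Path.extend_trans_of_half_le _ _ (by linarith [ht.2]), Path.extend_symm_apply]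
    congr 1
    ring
  · intro s
    rw [hr s]
    simp
  · intro s
    have hs := s.2
    rw [hr' s]
    simp only [ContinuousMap.coe_mk, Set.Icc.coe_one]
    rw [Path.extend_trans_of_le_half _ _ (by linarith [hs.2]),
      Path.extend_trans_of_half_le _ _ (by linarith [hs.1]), ← Path.extend_extends' γ s]
    congr 1
    ring

/-- The class of a loop in the group of loops. -/
def lp {x₀ : X} (γ : Path x₀ x₀) : Lp x₀ := cl γ

theorem exists_concat {x₀ : X} (k : ℕ) (γ : Fin k → Path x₀ x₀) :
    ∃ Γ : Path x₀ x₀, lp Γ = (List.ofFn (fun i => lp (γ i))).prod ∧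
      ∃ a b : Fin k → ℝ, (∀ i, 0 < a i ∧ a i < b i ∧ b i < 1) ∧ (∀ i j, i < j → b i < a j) ∧
        (∀ t : ℝ, (∀ i, t ∉ Set.Ioo (a i) (b i)) → Γ.extend t = x₀) ∧
        ∀ i, ∀ s ∈ Set.Icc (0 : ℝ) 1, Γ.extend (a i + s * (b i - a i)) = (γ i).extend s := by
  induction k with
  | zero =>
    exact ⟨Path.refl x₀, rfl, Fin.elim0, Fin.elim0, fun i => i.elim0, fun i => i.elim0,
      fun t _ => by simp, fun i => i.elim0⟩
  | succ k ih =>
    obtain ⟨Γ, h1, a, b, h2, h3, h4, h5⟩ := ih (fun i => γ i.succ)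
    refine ⟨(((Path.refl x₀).trans (γ 0)).trans (Path.refl x₀)).trans Γ, ?_,
      Fin.cons (1 / 8) (fun i => (1 + a i) / 2), Fin.cons (1 / 4) (fun i => (1 + b i) / 2),
      ?_, ?_, ?_, ?_⟩
    · rw [List.ofFn_succ, List.prod_cons, ← h1]
      change cl _ = (cl (γ 0)).trans (cl Γ)
      rw [cl_trans, cl_trans, cl_trans, cl_refl, Quotient.refl_trans, Quotient.trans_refl]
    · intro i
      refine Fin.cases ?_ (fun i => ?_) i
      · simp only [Fin.cons_zero]; norm_num
      · simp only [Fin.cons_succ]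
        obtain ⟨p1, p2, p3⟩ := h2 i
        refine ⟨by linarith, by linarith, by linarith⟩
    · intro i j
      refine Fin.cases ?_ (fun i => ?_) i <;> refine Fin.cases ?_ (fun j => ?_) j <;> intro hij
      · exact absurd hij (lt_irrefl _)
      · simp only [Fin.cons_zero, Fin.cons_succ]
        linarith [(h2 j).1]
      · exact absurd hij (Fin.not_lt_zero _)
      · simp only [Fin.cons_succ]
        linarith [h3 i j (Fin.succ_lt_succ_iff.1 hij)]
    · intro t ht
      have ht0 := ht 0
      simp only [Fin.cons_zero, Set.mem_Ioo, not_and_or, not_lt] at ht0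
      by_cases h : t ≤ 1 / 2
      · rw [Path.extend_trans_of_le_half _ _ h]
        by_cases h' : 2 * t ≤ 1 / 2
        · rw [Path.extend_trans_of_le_half _ _ h']
          by_cases h'' : 2 * (2 * t) ≤ 1 / 2
          · rw [Path.extend_trans_of_le_half _ _ h'']
            simp
          · rw [Path.extend_trans_of_half_le _ _ (by linarith)]
            rcases ht0 with ht0 | ht0
            · linarith
            · exact Path.extend_of_one_le _ (by linarith)
        · rw [Path.extend_trans_of_half_le _ _ (by linarith)]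
          simp
      · rw [Path.extend_trans_of_half_le _ _ (by linarith)]
        apply h4
        intro i hi
        apply ht i.succ
        simp only [Fin.cons_succ, Set.mem_Ioo] at hi ⊢
        constructor <;> linarith [hi.1, hi.2]
    · intro i
      refine Fin.cases ?_ (fun i => ?_) i <;> intro s hs
      · simp only [Fin.cons_zero]
        rw [Path.extend_trans_of_le_half _ _ (by linarith [hs.2]),
          Path.extend_trans_of_le_half _ _ (by linarith [hs.2]),
          Path.extend_trans_of_half_le _ _ (by linarith [hs.1])]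
        congr 1
        ring
      · simp only [Fin.cons_succ]
        obtain ⟨p1, p2, p3⟩ := h2 i
        rw [Path.extend_trans_of_half_le _ _ (by nlinarith [hs.1]), ← h5 i s hs]
        congr 1
        ring

/-- A factorisation of the class of f in the fundamental group gives a decomposition. -/
theorem hasFreeDecomp_of_prod {x₀ : X} {f : C(Circle, X)} {φ : Path x₀ x₀} (hf : Rep f φ)
    {k : ℕ} (c : Fin k → Lp x₀) (hc : lp φ = (List.ofFn c).prod)
    (F : Fin k → C(Circle, X))
    (hF : ∀ i, ∃ (z : X) (α : Path x₀ z) (β : Path z z),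
      c i = ((cl α).trans (cl β)).trans (cl α).symm ∧ Rep (F i) β) :
    HasFreeDecomp f k F := by
  have hpi := Real.pi_pos
  choose z α β hcl hrep using hF
  obtain ⟨Γ, h1, a, b, h2, h3, h4, h5⟩ :=
    exists_concat k (fun i => ((α i).trans (β i)).trans (α i).symm)
  obtain ⟨g, hg⟩ := exists_rep Γ
  have hg' : ∀ t ∈ Set.Icc (0 : ℝ) 1, g (Circle.exp (2 * π * t)) = Γ.extend t := by
    intro t ht
    rw [Path.extend_apply _ ht]
    exact hg ⟨t, ht⟩
  refine ⟨g, hg.homotopic hf ?_, fun i => 2 * π * a i, fun i => 2 * π * b i, ?_, ?_,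
    ⟨x₀, ?_⟩, ?_⟩
  · rw [← cl_eq]
    have : (fun i => lp (((α i).trans (β i)).trans (α i).symm)) = c := by
      funext i
      rw [hcl i]
      rfl
    rw [this, ← hc] at h1
    exact h1
  · intro j
    obtain ⟨p1, p2, p3⟩ := h2 j
    constructor <;> nlinarith
  · have key : ∀ i j, i < j → Disjoint (Circle.exp '' Set.Icc (2 * π * a i) (2 * π * b i))
        (Circle.exp '' Set.Icc (2 * π * a j) (2 * π * b j)) := by
      intro i j hij
      rw [Set.disjoint_left]
      rintro _ ⟨s, hs, rfl⟩ ⟨t, ht, hst⟩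
      obtain ⟨p1, p2, p3⟩ := h2 i
      obtain ⟨q1, q2, q3⟩ := h2 j
      have h6 := h3 i j hij
      have : t = s := by
        apply Circle.exp_injOn_Ico (a := 0) (b := 2 * π) (by linarith) _ _ hst
        · constructor <;> nlinarith [ht.1, ht.2]
        · constructor <;> nlinarith [hs.1, hs.2]
      nlinarith [ht.1, hs.2]
    intro i j hij
    rcases lt_or_gt_of_ne hij with h | h
    · exact key i j h
    · exact (key j i h).symm
  · intro w hw
    obtain ⟨s, rfl⟩ := exp_unit_surj w
    rw [hg' s s.2]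
    apply h4
    intro i hi
    apply hw
    simp only [Set.mem_iUnion]
    refine ⟨i, 2 * π * s, ⟨?_, ?_⟩, rfl⟩ <;> nlinarith [hi.1, hi.2]
  · intro j
    obtain ⟨h, hh⟩ := exists_rep (((α j).trans (β j)).trans (α j).symm)
    refine ⟨h, ?_, Rep.conj (α j) (β j) hh (hrep j)⟩
    intro s hs
    obtain ⟨p1, p2, p3⟩ := h2 j
    have e : 2 * π * a j + s * (2 * π * b j - 2 * π * a j) = 2 * π * (a j + s * (b j - a j)) := by
      ring
    dsimp only
    rw [e, hg' _ ⟨by nlinarith [hs.1], by nlinarith [hs.2]⟩, h5 j s hs, Path.extend_apply _ hs]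
    exact hh ⟨s, hs⟩

end Pool.Agent.Lib.MP_09d3b1_an
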