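import Mathlib
import Pool.Agent.Lib.MP_09d3b1_an.Loops
import Pool.Agent.Lib.MP_09d3b1_an.Energy

/-!
The decomposition theorem in a compact length space in which small loops are null-homotopic.
-/

set_option autoImplicit false

open scoped ENNReal Real unitInterval
open Path.Homotopic

namespace Pool.Agent.Lib.MP_09d3b1_an

variable {X : Type*} [PseudoEMetricSpace X]

/-- The path that f describes between two angles. -/
noncomputable def arcPath (f : C(Circle, X)) (a b : ℝ) :
    Path (f (Circle.exp a)) (f (Circle.exp b)) :=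
  (Path.segment a b).map (f.continuous.comp Circle.exp.continuous)

theorem arcPath_apply (f : C(Circle, X)) (a b : ℝ) (t : I) :
    arcPath f a b t = f (Circle.exp (a + t * (b - a))) := by
  simp only [arcPath, Path.map_coe, Function.comp_apply, Path.segment_apply,
    AffineMap.lineMap_apply, vsub_eq_sub, smul_eq_mul, vadd_eq_add]
  rw [add_comm]

theorem arcPath_trans (f : C(Circle, X)) (a b c : ℝ) :
    cl (arcPath f a c) = (cl (arcPath f a b)).trans (cl (arcPath f b c)) := by
  rw [← cl_trans, cl_eq]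
  unfold arcPath
  rw [← Path.map_trans]
  exact Path.Homotopic.map (SimplyConnectedSpace.paths_homotopic _ _)
    ⟨_, f.continuous.comp Circle.exp.continuous⟩

/-- The loop that f describes in one turn. -/
noncomputable def turn (f : C(Circle, X)) : Path (f (Circle.exp 0)) (f (Circle.exp 0)) :=
  (arcPath f 0 (2 * π)).cast rfl (by simp)

theorem rep_turn (f : C(Circle, X)) : Rep f (turn f) := by
  intro s
  simp only [turn, Path.cast_coe, arcPath_apply]
  congr 2
  ring

theorem exists_fine (f : C(Circle, X)) {e : ℝ≥0∞} (he : 0 < e) :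
    ∃ M, ∀ s t : ℝ, |s - t| ≤ len M → edist (f (Circle.exp s)) (f (Circle.exp t)) ≤ e := by
  have huc : UniformContinuous f := CompactSpace.uniformContinuous_of_continuous f.continuous
  obtain ⟨δ, hδ, h⟩ := EMetric.uniformContinuous_iff.1 huc e he
  obtain ⟨d, hd0, hd⟩ : ∃ d : ℝ, 0 < d ∧ ENNReal.ofReal d ≤ δ := by
    rcases eq_or_ne δ ⊤ with rfl | hne
    · exact ⟨1, one_pos, le_top⟩
    · exact ⟨δ.toReal, ENNReal.toReal_pos hδ.ne' hne, by rw [ENNReal.ofReal_toReal hne]⟩
  have hpi := Real.pi_pos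
  obtain ⟨M, hM⟩ := pow_unbounded_of_one_lt (2 * π / d) (show (1 : ℝ) < 2 by norm_num)
  refine ⟨M, fun s t hst => (h ?_).le⟩
  have h1 : len M < d := by
    unfold len
    rw [div_lt_iff₀ (by positivity)]
    rw [div_lt_iff₀ hd0] at hM
    have : (2 : ℝ) ^ M ≤ 2 ^ (M + 2) := pow_le_pow_right₀ (by norm_num) (by omega)
    nlinarith
  refine lt_of_lt_of_le ?_ hd
  rw [edist_dist, ENNReal.ofReal_lt_ofReal_iff hd0]
  have := norm_exp_sub_le t s
  change dist (Circle.exp s : ℂ) (Circle.exp t : ℂ) < d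
  rw [dist_eq_norm]
  linarith

theorem base_inv (hL : LengthLike X) {r : ℝ≥0∞} (hS : SmallTrivial X r) (f : C(Circle, X))
    {e : ℝ≥0∞} (K : ℕ) (hK : 12 ≤ K) (hKr : K * (2 * (4 * e)) < r) (M : ℕ)
    (hM : ∀ s t : ℝ, |s - t| ≤ len M → edist (f (Circle.exp s)) (f (Circle.exp t)) ≤ e) :
    (cov hL hS (f (Circle.exp 0)) (4 * e) K hK hKr).Inv (lp (turn f)) (Maj f e M)
      (2 ^ (M + 2)) 0 := by
  have hl := len_pos M
  refine ⟨fun j => ⟨f (Circle.exp (j * len M)), cl (arcPath f 0 (j * len M))⟩, fun _ => 0,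
    ?_, fun _ => rfl, ?_, ?_⟩
  · intro j
    have e1 : ((j + 2 ^ (M + 2) : ℕ) : ℝ) * len M = j * len M + 2 * π := by
      rw [Nat.cast_add, add_mul, len_mul]
    dsimp only
    rw [arcPath_trans f 0 (2 * π), ← cl_trans]
    change _ = Cv.mk _ (cl ((turn f).trans (arcPath f 0 (j * len M))))
    apply Cv.mk_eq_of_forall
    intro t
    rw [Path.trans_apply, Path.trans_apply]
    split_ifs
    · simp only [turn, Path.cast_coe]
    · rw [arcPath_apply, arcPath_apply, e1, ← Circle.exp_add_two_pi (0 + _)]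
      congr 2
      ring
  · intro j
    apply Cov.E.of_R
    apply Chain.one
    refine ⟨arcPath f (j * len M) ((j + 1 : ℕ) * len M), ?_, arcPath_trans f _ _ _⟩
    intro s t
    rw [arcPath_apply, arcPath_apply]
    refine (hM _ _ ?_).trans ?_
    · have hs := s.2
      have ht := t.2
      push_cast
      rw [abs_le]
      constructor <;> nlinarith [hs.1, hs.2, ht.1, ht.2]
    · calc e = 1 * e := (one_mul e).symm
        _ ≤ 8 * e := by gcongr; norm_num
        _ = 2 * (4 * e) := by ring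
  · intro j _
    apply maj_of_forall
    intro s hs
    apply hM
    rw [abs_le]
    constructor <;> linarith [hs.1, hs.2]

/-- The class of f is a product of deck transformations of controlled total displacement. -/
theorem cost_turn (hL : LengthLike X) {r : ℝ≥0∞} (hS : SmallTrivial X r) (f : C(Circle, X))
    {ε : ℝ} (hε : 0 < ε) (K : ℕ) (hK : 12 ≤ K) (hKr : K * (2 * (4 * ENNReal.ofReal ε)) < r) :
    ∃ n : ℕ, ENNReal.ofReal ε * n ≤ 86 * gapEnergy ε f ∧
      (cov hL hS (f (Circle.exp 0)) (4 * ENNReal.ofReal ε) K hK hKr).Cost (lp (turn f)) (8 * n) := by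
  classical
  set e := ENNReal.ofReal ε with he
  have he0 : 0 < e := ENNReal.ofReal_pos.2 hε
  have het : e ≠ ⊤ := ENNReal.ofReal_ne_top
  have h34 : 3 * e < 4 * e := ENNReal.mul_lt_mul_left he0.ne' het (by norm_num)
  obtain ⟨M, hM⟩ := exists_fine f he0
  have h1 := Cov.levels (Maj f e) M (fun l j q => maj_periodic l j q)
    (fun l j q => maj_child l j q)
    (C := cov hL hS (f (Circle.exp 0)) (4 * e) K hK hKr)
    (fun l j q q' h h' => lt_of_le_of_lt ((maj_near l j q q' h h').trans (by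
      gcongr; norm_num)) h34)
    (base_inv hL hS f K hK hKr M hM)
  refine ⟨_, count_le ε hε.le f M _ (fun l => Finset.filter_subset _ _) ?_, h1⟩
  intro l j hj
  have h2 := (Finset.mem_filter.1 hj).2
  by_contra hc
  push Not at hc
  obtain ⟨a1, a2, a3⟩ := hc
  exact h2 ⟨a1, a2, fun q q' h h' => lt_of_le_of_lt (a3 q q' h h') h34⟩

theorem main_metric [CompactSpace X] (hL : LengthLike X) {r : ℝ} (hr : 0 < r)
    (hS : SmallTrivial X (ENNReal.ofReal r)) :
    ∃ ε₀ : ℝ, 0 < ε₀ ∧ ∃ C : ℝ, 0 < C ∧ ∀ lam : ℝ, 0 < lam →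
      ∃ 𝓕 : Set C(Circle, X), 𝓕.Finite ∧ ∀ ε : ℝ, 0 < ε → ε < ε₀ → ∀ f : C(Circle, X),
        gapEnergy ε f ≤ ENNReal.ofReal lam →
        ∃ (k : ℕ) (F : Fin k → C(Circle, X)), (∀ j, F j ∈ 𝓕) ∧ (k : ℝ) ≤ C * lam ∧
          HasFreeDecomp f k F := by
  refine ⟨r / 192, by positivity, 11008 / r, by positivity, fun lam hlam => ?_⟩
  obtain ⟨L, hLf, hLc⟩ := finite_loops hL hS (η := ENNReal.ofReal (r / 11))
    (ENNReal.ofReal_pos.2 (by positivity)) (by
      rw [← ENNReal.ofReal_ofNat 10, ← ENNReal.ofReal_mul (by norm_num),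
        ENNReal.ofReal_lt_ofReal_iff hr]
      linarith) ⌈688 * 176 * lam / r⌉₊
  have hrep : ∀ p : (Σ z : X, Path.Homotopic.Quotient z z), ∃ (β : Path p.1 p.1)
      (h : C(Circle, X)), cl β = p.2 ∧ Rep h β := by
    intro p
    obtain ⟨β, hβ⟩ := Path.Homotopic.Quotient.mk_surjective p.2
    obtain ⟨h, hh⟩ := exists_rep β
    exact ⟨β, h, hβ, hh⟩
  choose β h hβ hh using hrep
  refine ⟨h '' L, hLf.image _, fun ε hε hε0 f hf => ?_⟩
  have hεr : 192 * ε < r := by linarith
  set K := ⌈r / (16 * ε)⌉₊ with hKdef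
  have hK1 : r / (16 * ε) ≤ K := Nat.le_ceil _
  have hK2 : (K : ℝ) < r / (16 * ε) + 1 := Nat.ceil_lt_add_one (by positivity)
  have hK1' : r ≤ 16 * ε * K := by rwa [div_le_iff₀' (by positivity)] at hK1
  have hK2' : 16 * ε * K < r + 16 * ε := by
    have := mul_lt_mul_of_pos_left hK2 (show 0 < 16 * ε by positivity)
    rwa [mul_add, mul_div_cancel₀ _ (by positivity), mul_one] at this
  have hK : 12 ≤ K := by
    have : (12 : ℝ) ≤ K := by nlinarith
    exact_mod_cast this
  have h8 : ∀ m : ℕ, (m : ℝ≥0∞) * (2 * (4 * ENNReal.ofReal ε)) = ENNReal.ofReal (m * (8 * ε)) := by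
    intro m
    rw [ENNReal.ofReal_mul (by positivity), ENNReal.ofReal_mul (by positivity),
      ENNReal.ofReal_natCast, ENNReal.ofReal_ofNat]
    ring
  have hKr : (K : ℝ≥0∞) * (2 * (4 * ENNReal.ofReal ε)) < ENNReal.ofReal r := by
    rw [h8, ENNReal.ofReal_lt_ofReal_iff hr]
    linarith
  obtain ⟨n, hn, l, hl1, hl2, hl3⟩ := cost_turn hL hS f hε K hK hKr
  have hn' : ε * n ≤ 86 * lam := by
    have h1 : ENNReal.ofReal ε * n ≤ 86 * ENNReal.ofReal lam := hn.trans (by gcongr)
    rw [← ENNReal.ofReal_natCast, ← ENNReal.ofReal_ofNat 86, ← ENNReal.ofReal_mul hε.le,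
      ← ENNReal.ofReal_mul (by norm_num), ENNReal.ofReal_le_ofReal_iff (by positivity)] at h1
    exact h1
  set J := ⌊r / (88 * ε)⌋₊ with hJdef
  have hJ1 : (J : ℝ) ≤ r / (88 * ε) := Nat.floor_le (by positivity)
  have hJ2 : r / (88 * ε) < J + 1 := Nat.lt_floor_add_one _
  have hJ1' : 88 * ε * J ≤ r := by rwa [le_div_iff₀' (by positivity)] at hJ1
  have hJ2' : r < 88 * ε * (J + 1) := by rwa [div_lt_iff₀' (by positivity)] at hJ2
  have hT : 688 * 176 * lam / r ≤ ⌈688 * 176 * lam / r⌉₊ := Nat.le_ceil _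
  set T := ⌈688 * 176 * lam / r⌉₊ with hTdef
  have hT' : 688 * 176 * lam ≤ r * T := by rwa [div_le_iff₀' hr] at hT
  have hTJ : 8 * n ≤ T * J := by
    have h1 : r ≤ 176 * ε * J := by linarith
    have h2 : r * T ≤ 176 * ε * J * T := by gcongr
    have h3 : (176 * ε) * (8 * n) ≤ (176 * ε) * (T * J) := by nlinarith
    have h4 : (8 * n : ℝ) ≤ T * J := le_of_mul_le_mul_left h3 (by positivity)
    exact_mod_cast h4
  have hF : ∀ i : Fin l.length, ∃ p ∈ L, ∃ α : Path.Homotopic.Quotient (f (Circle.exp 0)) p.1,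
      (l.get i).1 = (α.trans p.2).trans α.symm := by
    intro i
    have hmem : l.get i ∈ l := List.get_mem l i
    obtain ⟨-, w, hw⟩ := hl3 _ hmem
    apply hLc _ w
    have hm : (l.get i).2 ≤ 8 * n :=
      (List.single_le_sum (by simp) _ (List.mem_map_of_mem hmem)).trans hl2
    have hw' : Chain (2 * (4 * ENNReal.ofReal ε)) (T * J) w ((l.get i).1 • w) :=
      Chain.mono hw (hm.trans hTJ)
    apply hw'.regroup
    rw [h8]
    apply ENNReal.ofReal_le_ofReal
    linarith
  choose p hpL α hα using hF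
  refine ⟨l.length, fun i => h (p i), fun i => ⟨p i, hpL i, rfl⟩, ?_, ?_⟩
  · have h1 : l.length * K ≤ 8 * n := by
      refine le_trans ?_ hl2
      have := List.card_nsmul_le_sum (l.map Prod.snd) K (by
        intro x hx
        obtain ⟨q, hq, rfl⟩ := List.mem_map.1 hx
        exact (hl3 q hq).1.le)
      simpa using this
    have h2 : (l.length : ℝ) * K ≤ 8 * n := by exact_mod_cast h1
    rw [div_mul_eq_mul_div, le_div_iff₀ hr]
    have h3 : (l.length : ℝ) * r ≤ l.length * (16 * ε * K) := by gcongr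
    nlinarith
  · refine hasFreeDecomp_of_prod (rep_turn f) (fun i => (l.get i).1) ?_ _ ?_
    · rw [← hl1]
      congr 1
      apply List.ext_get <;> simp
    · intro i
      obtain ⟨a, ha⟩ := Path.Homotopic.Quotient.mk_surjective (α i)
      refine ⟨(p i).1, a, β (p i), ?_, hh (p i)⟩
      rw [hβ, hα i]
      change _ = ((Path.Homotopic.Quotient.mk a).trans _).trans (Path.Homotopic.Quotient.mk a).symm
      rw [ha]

end Pool.Agent.Lib.MP_09d3b1_an
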