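import Mathlib
import Pool.Agent.Lib.MP_09d3b1_an.Metric

/-!
A compact Riemannian manifold is a length space in which small loops are null-homotopic.
-/

set_option autoImplicit false

open scoped ENNReal Real Manifold Bundle ContDiff Topology
open Set

namespace Pool.Agent.Lib.MP_09d3b1_an

variable {E : Type*} [NormedAddCommGroup E] [NormedSpace ℝ E]
  {H : Type*} [TopologicalSpace H] {J : ModelWithCorners ℝ E H}

theorem exists_nhds_trivial {N : Type*} [TopologicalSpace N] [ChartedSpace H N] (J : ModelWithCorners ℝ E H)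
    (x : N) : ∃ U : Set N, IsOpen U ∧ x ∈ U ∧
      ∀ (y : N) (γ : Path y y), (∀ t, γ t ∈ U) → γ.Homotopic (Path.refl y) := by
  have h1 := extChartAt_target_mem_nhdsWithin (I := J) x
  obtain ⟨ρ, hρ, hsub⟩ := Metric.mem_nhdsWithin_iff.1 h1
  have hconv : Convex ℝ (Metric.ball (extChartAt J x x) ρ ∩ range J) :=
    (convex_ball _ _).inter J.convex_range
  refine ⟨(extChartAt J x).source ∩ extChartAt J x ⁻¹' Metric.ball (extChartAt J x x) ρ,
    isOpen_extChartAt_preimage' x Metric.isOpen_ball,
    ⟨mem_extChartAt_source x, Metric.mem_ball_self hρ⟩, fun y γ hγ => ?_⟩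
  have hy := hγ 0
  rw [γ.source] at hy
  have hmem : ∀ z ∈ (extChartAt J x).source ∩
      extChartAt J x ⁻¹' Metric.ball (extChartAt J x x) ρ,
      extChartAt J x z ∈ Metric.ball (extChartAt J x x) ρ ∩ range J := fun z hz =>
    ⟨hz.2, extChartAt_target_subset_range x ((extChartAt J x).map_source hz.1)⟩
  have hc : Continuous fun t => extChartAt J x (γ t) :=
    (continuousOn_extChartAt x).comp_continuous γ.continuous fun t => (hγ t).1
  have hin : ∀ p : unitInterval × unitInterval, (1 - (p.1 : ℝ)) • extChartAt J x (γ p.2) + (p.1 : ℝ) • extChartAt J x y ∈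
      (extChartAt J x).target := fun p =>
    hsub (hconv (hmem _ (hγ p.2)) (hmem _ hy) (by linarith [p.1.2.2]) p.1.2.1 (by ring))
  refine ⟨⟨⟨⟨fun p => (extChartAt J x).symm
    ((1 - (p.1 : ℝ)) • extChartAt J x (γ p.2) + (p.1 : ℝ) • extChartAt J x y), ?_⟩, ?_, ?_⟩, ?_⟩⟩
  · refine (continuousOn_extChartAt_symm x).comp_continuous ?_ hin
    have := hc.comp (continuous_snd : Continuous (Prod.snd : unitInterval × unitInterval → unitInterval))
    exact ((continuous_const.sub (continuous_subtype_val.comp continuous_fst)).smul this).add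
      ((continuous_subtype_val.comp continuous_fst).smul continuous_const)
  · intro t
    simp only [Set.Icc.coe_zero, sub_zero, one_smul, zero_smul, add_zero]
    exact (extChartAt J x).left_inv (hγ t).1
  · intro t
    simp only [Set.Icc.coe_one, sub_self, one_smul, zero_smul, zero_add]
    exact (extChartAt J x).left_inv hy.1
  · intro t s hs
    have hs' : γ s = y := by
      rcases hs with rfl | rfl
      · exact γ.source
      · exact γ.target
    change (extChartAt J x).symm ((1 - (t : ℝ)) • extChartAt J x (γ s) +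
      (t : ℝ) • extChartAt J x y) = γ s
    rw [hs', ← add_smul, sub_add_cancel, one_smul]
    exact (extChartAt J x).left_inv hy.1

theorem smallTrivial_of_compact {N : Type*} [PseudoEMetricSpace N] [ChartedSpace H N]
    [CompactSpace N] (J : ModelWithCorners ℝ E H) :
    ∃ r : ℝ, 0 < r ∧ SmallTrivial N (ENNReal.ofReal r) := by
  choose U hUo hUx hU using exists_nhds_trivial (N := N) J
  obtain ⟨δ, hδ, h⟩ := lebesgue_number_lemma_of_emetric (s := univ) isCompact_univ hUo
    (fun x _ => mem_iUnion.2 ⟨x, hUx x⟩)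
  obtain ⟨d, hd0, hd⟩ : ∃ d : ℝ, 0 < d ∧ ENNReal.ofReal d ≤ δ := by
    rcases eq_or_ne δ ⊤ with rfl | hne
    · exact ⟨1, one_pos, le_top⟩
    · exact ⟨δ.toReal, ENNReal.toReal_pos hδ.ne' hne, by rw [ENNReal.ofReal_toReal hne]⟩
  refine ⟨d, hd0, fun x γ hγ => ?_⟩
  obtain ⟨i, hi⟩ := h x (mem_univ x)
  refine hU i x γ fun t => hi ?_
  rw [Metric.mem_eball, edist_comm]
  exact (hγ t).trans_le hd

theorem lengthLike_of_riemannian {N : Type*} [PseudoEMetricSpace N] [ChartedSpace H N]
    [Bundle.RiemannianBundle (fun x : N => TangentSpace J x)] [IsRiemannianManifold J N] :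
    LengthLike N := by
  intro x y r h
  rw [IsRiemannianManifold.out (I := J)] at h
  obtain ⟨γ, h0, h1, hs, hl⟩ := Manifold.exists_lt_of_riemannianEDist_lt h
  refine ⟨⟨⟨fun t => γ t, hs.continuousOn.comp_continuous continuous_subtype_val fun t => t.2⟩,
    h0, h1⟩, fun t => ?_⟩
  change edist x (γ t) < r
  rw [IsRiemannianManifold.out (I := J)]
  refine lt_of_le_of_lt ?_ hl
  refine (Manifold.riemannianEDist_le_pathELength (hs.mono (Icc_subset_Icc_right t.2.2)) h0 rfl
    t.2.1).trans ?_
  exact Manifold.pathELength_mono le_rfl t.2.2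

end Pool.Agent.Lib.MP_09d3b1_an
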